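import Mathlib
import Pool.Agent.Y731.GV.Germ

/-!
# Multiplier ideals: from a table of tangent vectors to the height of the Gauss map
-/

set_option autoImplicit false
set_option linter.unusedSectionVars false
set_option linter.unusedVariables false

namespace Pool.Agent.Y731.MI

open Filter Topology Pool.Agent.TH932.Germs Pool.Agent.TH551.SU Pool.Agent.TH551.ZP
open Pool.Agent.TH551.SU.CRV Pool.Agent.TH551.ZP.GT MvPolynomial Pool.Agent.TH551.HA
open Pool.Agent.TH551.HA.P1 (DP_sum rat_mem DP_const AQ AD qi_int dom_of_le)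
open Pool.Agent.TH551.HA.Ci (aeval_gmn)
open Pool.Agent.Y731.GV

section

variable {s' : ℕ} {b : Fin s' → ℕ} {L : ℕ → ℝ}

/-- **the core** -/
theorem germCore (hb : ∀ v, (b v).Prime) (hbi : Function.Injective b)
    (hL : Tendsto L atTop atTop) {m s g : ℕ}
    (f : Fin g → MvPolynomial (Fin (m + 1 + s)) ℚ)
    (hNC : SNC f (fun (_ : Fin 0) (_ : Fin 0) => (0 : MvPolynomial (Fin (m + 1 + s)) ℚ)) s)
    (x : Fin (m + 1 + s) → ℕ → ℤ) (hfA : ∀ j t, aeval (fun c => (x c t : ℚ)) (f j) = 0)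
    (S0 : Fin (m + 1) → Fin (m + 1 + s)) (hX00 : gm (fun t => (x (S0 0) t : ℚ)) ≠ 0)
    (R : Fin (m + 1) → Fin (m + 1 + s) → GG) (hdet : (Matrix.of fun ρ i => R ρ (S0 i)).det ≠ 0)
    (htan : ∀ ρ j, ∑ c, R ρ c * aeval (fun c => gm (fun t => (x c t : ℚ))) (pderiv c (f j)) = 0)
    (hqi : ∀ ρ c, QI b L (R ρ c))
    (A : ℕ → Matrix (Fin (m + 1 + s)) (Fin (m + 1)) ℤ)
    (hAli : ∀ t, ∀ κ : Fin (m + 1) → ℚ, (∀ c, ∑ ρ, κ ρ * (A t c ρ : ℚ) = 0) → ∀ ρ, κ ρ = 0)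
    (hAt : ∀ t ρ j, ∑ c, (A t c ρ : ℚ) * aeval (fun c => (x c t : ℚ)) (pderiv c (f j)) = 0)
    (Bd : Option (Fin s') → ℕ → ℝ)
    (hBd : ∀ (J0 : Fin (m + 1) → Fin (m + 1 + s)) v, ∀ᶠ t in (UU : Filter ℕ),
      av b v (rep (Matrix.of fun ρ i => R ρ (J0 i)).det t) ≤ Bd v t) (ε : ℝ) (hε : 0 < ε) :
    ∀ᶠ t in (UU : Filter ℕ), mnr (A t) S0 ≠ 0 ∧
        (((Finset.univ.sup fun J : Fin (m + 1) → Fin (m + 1 + s) => (mnr (A t) J).natAbs : ℕ) : ℝ) /
          ((Finset.univ.gcd fun J : Fin (m + 1) → Fin (m + 1 + s) => mnr (A t) J : ℤ) : ℝ)) ≤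
      Real.exp (ε * L t) * ∏ v, Bd v t := by
  classical
  -- the matrix `A` as germs
  obtain ⟨A', hA'⟩ : ∃ A' : Fin (m + 1) → Fin (m + 1 + s) → GG,
      A' = fun ρ c => gm (fun t => (A t c ρ : ℚ)) := ⟨_, rfl⟩
  have hAlin : LinearIndependent GG A' := by
    rw [Fintype.linearIndependent_iff]
    intro κ hκ ρ
    have h1 : ∀ c, ∑ ρ, κ ρ * A' ρ c = 0 := by
      intro c
      have := congrFun hκ c
      simpa [Finset.sum_apply] using this
    have h2 : ∀ c, ∀ᶠ t in (UU : Filter ℕ), ∑ ρ, rep (κ ρ) t * (A t c ρ : ℚ) = 0 := by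
      intro c
      have h3 := h1 c
      have h4 : ∀ ρ, κ ρ * A' ρ c = gm (fun t => rep (κ ρ) t * (A t c ρ : ℚ)) := by
        intro ρ
        rw [hA', ← gm_mul, gm_rep]
      rw [Finset.sum_congr rfl fun ρ _ => h4 ρ, gm_sum', ← gm_zero, gm_eq] at h3
      exact h3
    have h3 : ∀ᶠ t in (UU : Filter ℕ), rep (κ ρ) t = 0 := by
      filter_upwards [eventually_all.2 h2] with t ht
      exact hAli t (fun ρ => rep (κ ρ) t) ht ρ
    rw [← gm_rep (κ ρ), ← gm_zero, gm_eq]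
    exact h3
  have hfx : ∀ j, aeval (fun c => gm (fun t => (x c t : ℚ))) (f j) = 0 := by
    intro j
    rw [aeval_gmn, ← gm_zero]
    congr 1
    funext t
    exact hfA j t
  obtain ⟨T, V, hV⟩ := exists_dual f _ hNC (fun c => gm (fun t => (x c t : ℚ))) hfx (S0 0) hX00
  have hA0 : ∀ ρ j, ∑ c, A' ρ c *
      aeval (fun c => gm (fun t => (x c t : ℚ))) (pderiv c (f (T j))) = 0 := by
    intro ρ j
    rw [hA']
    simp only [aeval_gmn, gm_mul]
    rw [gm_sum', ← gm_zero]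
    congr 1
    funext t
    exact hAt t ρ (T j)
  obtain ⟨Q, hQ⟩ := comb (fun j c => aeval (fun c => gm (fun t => (x c t : ℚ)))
    (pderiv c (f (T j)))) V hV A' R hAlin hA0 (fun ρ j => htan ρ (T j))
  obtain ⟨D, hD⟩ : ∃ D, D = Q.det := ⟨_, rfl⟩
  have hW : ∀ J0 : Fin (m + 1) → Fin (m + 1 + s), (Matrix.of fun ρ i => R ρ (J0 i)).det =
      D * gm (fun t => (mnr (A t) J0 : ℚ)) := by
    intro J0
    have h1 : (Matrix.of fun ρ i => R ρ (J0 i)) =
        Q * Matrix.of fun ρ i => gm (fun t => (A t (J0 i) ρ : ℚ)) := by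
      ext ρ i
      rw [Matrix.mul_apply, Matrix.of_apply, hQ]
      refine Finset.sum_congr rfl fun ρ' _ => ?_
      rw [hA']
      rfl
    rw [h1, Matrix.det_mul, det_gm, hD]
    congr 2
    funext t
    unfold mnr
    rw [← Matrix.det_transpose, Int.cast_det]
    congr 1
  obtain ⟨gd, hgd⟩ : ∃ gd : ℕ → ℤ, gd = fun t =>
      Finset.univ.gcd fun J : Fin (m + 1) → Fin (m + 1 + s) => mnr (A t) J := ⟨_, rfl⟩
  choose u hu using fun t => exists_gcd_comb (Finset.univ : Finset (Fin (m + 1) → Fin (m + 1 + s)))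
    (fun J => mnr (A t) J)
  obtain ⟨Ω', hΩ'⟩ : ∃ Ω', Ω' = ∑ J0 : Fin (m + 1) → Fin (m + 1 + s),
      gm (fun t => (u t J0 : ℚ)) * (Matrix.of fun ρ i => R ρ (J0 i)).det := ⟨_, rfl⟩
  have hΩ'q : QI b L Ω' := by
    rw [hΩ']
    refine QI.sum hb hL _ _ fun J0 _ => QI.mul hb (qi_int hL fun t => u t J0) ?_
    show (Matrix.of fun ρ i => R ρ (J0 i)).det ∈ AQ hb hL
    rw [Matrix.det_apply]
    refine (AQ hb hL).sum_mem fun σ _ => ?_
    rw [Units.smul_def, zsmul_eq_mul]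
    exact (AQ hb hL).mul_mem (intCast_mem _ _) ((AQ hb hL).prod_mem fun c _ => hqi _ _)
  have hΛ : D * gm (fun t => (gd t : ℚ)) = Ω' := by
    have h1 : gm (fun t => (gd t : ℚ)) = ∑ J0 : Fin (m + 1) → Fin (m + 1 + s),
        gm (fun t => (u t J0 : ℚ)) * gm (fun t => (mnr (A t) J0 : ℚ)) := by
      simp only [gm_mul]
      rw [gm_sum']
      congr 1
      funext t
      have h3 : gd t = ∑ J0, u t J0 * mnr (A t) J0 := by rw [hu t, hgd]
      rw [h3]
      push_cast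
      rfl
    rw [h1, hΩ', Finset.mul_sum]
    refine Finset.sum_congr rfl fun J0 _ => ?_
    rw [hW J0]
    ring
  have hD0 : D ≠ 0 := by
    intro h0
    apply hdet
    rw [hW S0, h0, zero_mul]
  have hmS0 : gm (fun t => (mnr (A t) S0 : ℚ)) ≠ 0 := by
    intro h0
    apply hdet
    rw [hW S0, h0, mul_zero]
  have hgd0 : ∀ᶠ t in (UU : Filter ℕ), gd t ≠ 0 := by
    rw [gm_ne_zero] at hmS0
    filter_upwards [hmS0] with t ht h0
    rw [hgd] at h0
    have h1 := (Finset.gcd_eq_zero_iff.1 h0) S0 (Finset.mem_univ _)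
    exact ht (by exact_mod_cast h1)
  have hΩ'0 : Ω' ≠ 0 := by
    rw [← hΛ]
    refine mul_ne_zero hD0 ?_
    rw [gm_ne_zero]
    exact hgd0.mono fun t ht => by exact_mod_cast ht
  -- at the indices
  have hWt : ∀ J0 : Fin (m + 1) → Fin (m + 1 + s), ∀ᶠ t in (UU : Filter ℕ),
      rep (Matrix.of fun ρ i => R ρ (J0 i)).det t = rep D t * (mnr (A t) J0 : ℚ) := by
    intro J0
    rw [hW J0]
    filter_upwards [rep_mul D (gm (fun t => (mnr (A t) J0 : ℚ))),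
      rep_gm (fun t => (mnr (A t) J0 : ℚ))] with t h1 h2
    rw [h1, h2]
  have hΛt : ∀ᶠ t in (UU : Filter ℕ), rep D t * (gd t : ℚ) = 1 * rep Ω' t := by
    have h1 := rep_mul D (gm (fun t => (gd t : ℚ)))
    rw [hΛ] at h1
    filter_upwards [h1, rep_gm (fun t => (gd t : ℚ))] with t h2 h3
    rw [one_mul, h2, h3]
  filter_upwards [eventually_all.2 hWt, hΛt, hgd0, QI.lower hb hbi hL hΩ'q hΩ'0 ε hε,
    eventually_all.2 fun J0 => eventually_all.2 fun v => hBd J0 v, gm_ne_zero.1 hmS0] with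
      t h1 h2 h3 h4 h6 h0
  refine ⟨fun h => h0 (by rw [h, Int.cast_zero]), ?_⟩
  have hgt : gd t = Finset.univ.gcd fun J : Fin (m + 1) → Fin (m + 1 + s) => mnr (A t) J := by
    rw [hgd]
  rw [hgt] at h2 h3
  have key := places hb (fun J : Fin (m + 1) → Fin (m + 1 + s) => mnr (A t) J) (rep D t)
    1 (rep Ω' t) (fun v => Bd v t) _ (Real.exp_pos _).le h3 h2 h4 (fun v J0 => by
      rw [← h1 J0]
      exact h6 J0 v)
  rw [Finset.prod_congr rfl fun v _ => av_one hb v, Finset.prod_const_one, one_mul] at key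
  obtain ⟨lhs, hlhs⟩ : ∃ lhs, lhs =
        (((Finset.univ.sup fun J : Fin (m + 1) → Fin (m + 1 + s) => (mnr (A t) J).natAbs : ℕ) : ℝ) /
          ((Finset.univ.gcd fun J : Fin (m + 1) → Fin (m + 1 + s) => mnr (A t) J : ℤ) : ℝ)) :=
    ⟨_, rfl⟩
  rw [← hlhs] at key ⊢
  have h10 : Real.exp (-(ε * L t)) * Real.exp (ε * L t) = 1 := by
    rw [← Real.exp_add]
    simp
  calc lhs = Real.exp (ε * L t) * (Real.exp (-(ε * L t)) * lhs) := by
        rw [← mul_assoc, mul_comm (Real.exp (ε * L t)), h10, one_mul]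
    _ ≤ _ := mul_le_mul_of_nonneg_left key (Real.exp_pos _).le

end

end Pool.Agent.Y731.MI
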