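import Mathlib
import Pool.Agent.TH551.HA.Defs

/-!
# Multiplier ideals: the real valuations defined by a sequence of points
-/

set_option autoImplicit false
set_option linter.unusedSectionVars false
set_option linter.unusedVariables false

namespace Pool.Agent.Y731.MI

open Filter Topology Pool.Agent.TH932.Germs Pool.Agent.TH551.SU Pool.Agent.TH551.HA

section

variable {s' : ℕ} {b : Fin s' → ℕ} {L : ℕ → ℝ}

/-- the limit of the roots of the absolute values -/
noncomputable def lmv (b : Fin s' → ℕ) (v : Option (Fin s')) (L : ℕ → ℝ) (q : ℕ → ℚ) : ℝ :=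
  limUnder (UU : Filter ℕ) (fun t => av b v (q t) ^ (1 / L t))

/-- moderate sequences -/
def Md (b : Fin s' → ℕ) (v : Option (Fin s')) (L : ℕ → ℝ) (q : ℕ → ℚ) : Prop :=
  ∃ K : ℝ, ∀ᶠ t in (UU : Filter ℕ), av b v (q t) ≤ Real.exp (K * L t)

lemma ev_pos (hL : Tendsto L atTop atTop) : ∀ᶠ t in (UU : Filter ℕ), 0 < L t :=
  ev_of_atTop (hL.eventually_gt_atTop 0)

lemma lmv_tendsto (hb : ∀ v, (b v).Prime) (hL : Tendsto L atTop atTop) {v : Option (Fin s')}
    {q : ℕ → ℚ} (hq : Md b v L q) :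
    Tendsto (fun t => av b v (q t) ^ (1 / L t)) (UU : Filter ℕ) (𝓝 (lmv b v L q)) := by
  obtain ⟨K, hK⟩ := hq
  have h1 : ∀ᶠ t in (UU : Filter ℕ), av b v (q t) ^ (1 / L t) ∈ Set.Icc 0 (Real.exp K) := by
    filter_upwards [hK, ev_pos hL] with t h2 h3
    refine ⟨Real.rpow_nonneg (av_nonneg hb _ _) _, ?_⟩
    calc av b v (q t) ^ (1 / L t) ≤ Real.exp (K * L t) ^ (1 / L t) :=
          Real.rpow_le_rpow (av_nonneg hb _ _) h2 (by positivity)
      _ = Real.exp K := by
          rw [← Real.exp_mul]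
          congr 1
          field_simp
  obtain ⟨x, _, hx⟩ := isCompact_Icc.ultrafilter_le_nhds
    (UU.map fun t => av b v (q t) ^ (1 / L t)) (by
      rw [le_principal_iff]
      exact h1)
  exact tendsto_nhds_limUnder ⟨x, hx⟩

/-- a strict upper bound for the limit -/
lemma ev_le_of_lmv_lt (hb : ∀ v, (b v).Prime) (hL : Tendsto L atTop atTop)
    {v : Option (Fin s')} {q : ℕ → ℚ} (hq : Md b v L q) {r : ℝ} (h : lmv b v L q < r) :
    ∀ᶠ t in (UU : Filter ℕ), av b v (q t) ≤ r ^ L t := by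
  filter_upwards [(lmv_tendsto hb hL hq).eventually_lt_const h, ev_pos hL] with t h1 h2
  have h3 : 0 ≤ av b v (q t) ^ (1 / L t) := Real.rpow_nonneg (av_nonneg hb _ _) _
  calc av b v (q t) = (av b v (q t) ^ (1 / L t)) ^ L t := by
        rw [← Real.rpow_mul (av_nonneg hb _ _), one_div, inv_mul_cancel₀ h2.ne', Real.rpow_one]
    _ ≤ r ^ L t := Real.rpow_le_rpow h3 h1.le h2.le

/-- a strict lower bound for the limit -/
lemma ev_ge_of_lt_lmv (hb : ∀ v, (b v).Prime) (hL : Tendsto L atTop atTop)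
    {v : Option (Fin s')} {q : ℕ → ℚ} (hq : Md b v L q) {r : ℝ} (hr : 0 ≤ r)
    (h : r < lmv b v L q) : ∀ᶠ t in (UU : Filter ℕ), r ^ L t ≤ av b v (q t) := by
  filter_upwards [(lmv_tendsto hb hL hq).eventually_const_lt h, ev_pos hL] with t h1 h2
  calc r ^ L t ≤ (av b v (q t) ^ (1 / L t)) ^ L t := Real.rpow_le_rpow hr h1.le h2.le
    _ = av b v (q t) := by
        rw [← Real.rpow_mul (av_nonneg hb _ _), one_div, inv_mul_cancel₀ h2.ne', Real.rpow_one]

lemma lmv_nonneg (hb : ∀ v, (b v).Prime) (hL : Tendsto L atTop atTop) {v : Option (Fin s')}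
    {q : ℕ → ℚ} (hq : Md b v L q) : 0 ≤ lmv b v L q :=
  ge_of_tendsto (lmv_tendsto hb hL hq)
    (Eventually.of_forall fun t => Real.rpow_nonneg (av_nonneg hb _ _) _)

/-- an upper bound for the limit -/
lemma lmv_le (hb : ∀ v, (b v).Prime) (hL : Tendsto L atTop atTop) {v : Option (Fin s')}
    {q : ℕ → ℚ} {K : ℝ} (hq : ∀ᶠ t in (UU : Filter ℕ), av b v (q t) ≤ Real.exp (K * L t)) :
    lmv b v L q ≤ Real.exp K := by
  refine le_of_tendsto (lmv_tendsto hb hL ⟨K, hq⟩) ?_
  filter_upwards [hq, ev_pos hL] with t h2 h3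
  calc av b v (q t) ^ (1 / L t) ≤ Real.exp (K * L t) ^ (1 / L t) :=
        Real.rpow_le_rpow (av_nonneg hb _ _) h2 (by positivity)
    _ = Real.exp K := by
        rw [← Real.exp_mul]
        congr 1
        field_simp

/-- a lower bound for the limit -/
lemma le_lmv (hb : ∀ v, (b v).Prime) (hL : Tendsto L atTop atTop) {v : Option (Fin s')}
    {q : ℕ → ℚ} (hq : Md b v L q) {K : ℝ}
    (h : ∀ᶠ t in (UU : Filter ℕ), Real.exp (K * L t) ≤ av b v (q t)) :
    Real.exp K ≤ lmv b v L q := by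
  refine ge_of_tendsto (lmv_tendsto hb hL hq) ?_
  filter_upwards [h, ev_pos hL] with t h2 h3
  calc Real.exp K = Real.exp (K * L t) ^ (1 / L t) := by
        rw [← Real.exp_mul]
        congr 1
        field_simp
    _ ≤ av b v (q t) ^ (1 / L t) := Real.rpow_le_rpow (Real.exp_pos _).le h2 (by positivity)

lemma lmv_mul (hb : ∀ v, (b v).Prime) (hL : Tendsto L atTop atTop) {v : Option (Fin s')}
    {p q : ℕ → ℚ} (hp : Md b v L p) (hq : Md b v L q) :
    lmv b v L (fun t => p t * q t) = lmv b v L p * lmv b v L q := by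
  have h1 := (lmv_tendsto hb hL hp).mul (lmv_tendsto hb hL hq)
  have h2 : (fun t => av b v (p t) ^ (1 / L t) * av b v (q t) ^ (1 / L t)) =
      fun t => av b v (p t * q t) ^ (1 / L t) := by
    funext t
    rw [av_mul hb, Real.mul_rpow (av_nonneg hb _ _) (av_nonneg hb _ _)]
  rw [h2] at h1
  exact h1.limUnder_eq

lemma lmv_zero (hb : ∀ v, (b v).Prime) (hL : Tendsto L atTop atTop) {v : Option (Fin s')}
    {q : ℕ → ℚ} (hq : ∀ᶠ t in (UU : Filter ℕ), q t = 0) : lmv b v L q = 0 := by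
  refine Tendsto.limUnder_eq ?_
  refine tendsto_const_nhds.congr' ?_
  filter_upwards [hq, ev_pos hL] with t h1 h2
  rw [h1, av_zero hb, Real.zero_rpow (by positivity)]

/-- constants -/
lemma lmv_const (hb : ∀ v, (b v).Prime) (hL : Tendsto L atTop atTop) {v : Option (Fin s')}
    {q : ℚ} (hq : q ≠ 0) : lmv b v L (fun _ => q) = 1 := by
  refine Tendsto.limUnder_eq ?_
  have h1 : Tendsto (fun t => 1 / L t) (UU : Filter ℕ) (𝓝 0) := by
    have h2 : Tendsto (fun t => 1 / L t) atTop (𝓝 0) := by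
      simp only [one_div]
      exact hL.inv_tendsto_atTop
    exact h2.mono_left (Nat.hyperfilter_le_atTop)
  have h3 : Tendsto (fun t => av b v q ^ (1 / L t)) (UU : Filter ℕ) (𝓝 (av b v q ^ (0 : ℝ))) :=
    ((Real.continuousAt_const_rpow (av_pos hb v hq).ne').tendsto.comp h1)
  rwa [Real.rpow_zero] at h3

lemma lmv_add (hb : ∀ v, (b v).Prime) (hL : Tendsto L atTop atTop) {v : Option (Fin s')}
    {p q : ℕ → ℚ} (hp : Md b v L p) (hq : Md b v L q) (hpq : Md b v L fun t => p t + q t) :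
    lmv b v L (fun t => p t + q t) ≤ max (lmv b v L p) (lmv b v L q) := by
  have h1 : Tendsto (fun t => 1 / L t) (UU : Filter ℕ) (𝓝 0) := by
    have h2 : Tendsto (fun t => 1 / L t) atTop (𝓝 0) := by
      simp only [one_div]
      exact hL.inv_tendsto_atTop
    exact h2.mono_left (Nat.hyperfilter_le_atTop)
  have h3 : Tendsto (fun t => (2 : ℝ) ^ (1 / L t)) (UU : Filter ℕ) (𝓝 ((2 : ℝ) ^ (0 : ℝ))) :=
    ((Real.continuousAt_const_rpow (by norm_num)).tendsto.comp h1)
  rw [Real.rpow_zero] at h3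
  have h4 := h3.mul ((lmv_tendsto hb hL hp).max (lmv_tendsto hb hL hq))
  rw [one_mul] at h4
  refine le_of_tendsto_of_tendsto (lmv_tendsto hb hL hpq) h4 ?_
  filter_upwards [ev_pos hL] with t h2
  have h5 : 0 ≤ 1 / L t := by positivity
  have h6 : av b v (p t + q t) ≤ 2 * max (av b v (p t)) (av b v (q t)) := by
    have h7 := av_add hb v (p t) (q t)
    have h8 := le_max_left (av b v (p t)) (av b v (q t))
    have h9 := le_max_right (av b v (p t)) (av b v (q t))
    linarith
  calc av b v (p t + q t) ^ (1 / L t) ≤ (2 * max (av b v (p t)) (av b v (q t))) ^ (1 / L t) :=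
        Real.rpow_le_rpow (av_nonneg hb _ _) h6 h5
    _ = 2 ^ (1 / L t) * max (av b v (p t)) (av b v (q t)) ^ (1 / L t) :=
        Real.mul_rpow (by norm_num) (le_max_of_le_left (av_nonneg hb _ _))
    _ = _ := by
        congr 1
        rcases le_total (av b v (p t)) (av b v (q t)) with h | h
        · rw [max_eq_right h, max_eq_right (Real.rpow_le_rpow (av_nonneg hb _ _) h h5)]
        · rw [max_eq_left h, max_eq_left (Real.rpow_le_rpow (av_nonneg hb _ _) h h5)]

/-- the valuation -/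
noncomputable def gval {R : Type} [CommRing R] (hb : ∀ v, (b v).Prime)
    (hL : Tendsto L atTop atTop) (v : Option (Fin s')) (φ : R →+* (ℕ → ℚ))
    (hφ : ∀ P, Md b v L (φ P)) : Valuation R NNReal where
  toFun P := (lmv b v L (φ P)).toNNReal
  map_zero' := by
    rw [lmv_zero hb hL (Eventually.of_forall fun t => by rw [map_zero]; rfl), Real.toNNReal_zero]
  map_one' := by
    have h1 : lmv b v L (φ 1) = 1 := by
      rw [map_one]
      exact lmv_const hb hL one_ne_zero
    rw [h1, Real.toNNReal_one]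
  map_mul' P Q := by
    have h1 : lmv b v L (φ (P * Q)) = lmv b v L (φ P) * lmv b v L (φ Q) := by
      rw [map_mul]
      exact lmv_mul hb hL (hφ P) (hφ Q)
    rw [h1, Real.toNNReal_mul (lmv_nonneg hb hL (hφ P))]
  map_add_le_max' P Q := by
    have h1 : lmv b v L (φ (P + Q)) ≤ max (lmv b v L (φ P)) (lmv b v L (φ Q)) := by
      have h := hφ (P + Q)
      rw [map_add] at h ⊢
      exact lmv_add hb hL (hφ P) (hφ Q) h
    rcases le_total (lmv b v L (φ P)) (lmv b v L (φ Q)) with h2 | h2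
    · rw [max_eq_right h2] at h1
      exact le_max_of_le_right (Real.toNNReal_le_toNNReal h1)
    · rw [max_eq_left h2] at h1
      exact le_max_of_le_left (Real.toNNReal_le_toNNReal h1)

lemma gval_coe {R : Type} [CommRing R] (hb : ∀ v, (b v).Prime)
    (hL : Tendsto L atTop atTop) (v : Option (Fin s')) (φ : R →+* (ℕ → ℚ))
    (hφ : ∀ P, Md b v L (φ P)) (P : R) :
    ((gval hb hL v φ hφ P : NNReal) : ℝ) = lmv b v L (φ P) :=
  Real.coe_toNNReal _ (lmv_nonneg hb hL (hφ P))

end

end Pool.Agent.Y731.MI
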