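import Mathlib

/-!
# Multiplier ideals: definitions, and the identity of differential forms over all fields
-/

set_option autoImplicit false
set_option linter.unusedSectionVars false
set_option linter.unusedVariables false

namespace Pool.Agent.Y731.MI

open MvPolynomial

section

variable {M g : ℕ}

/-- `P` vanishes on `X` -/
def Vanishes (G : Fin g → MvPolynomial (Fin M) ℤ) (P : MvPolynomial (Fin M) ℤ) : Prop :=
  ∀ z : Fin M → ℂ, (∀ k, aeval z (G k) = 0) → aeval z P = 0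

/-- the real valuations of the function field of `X` -/
def IsPlace (G : Fin g → MvPolynomial (Fin M) ℤ) (w : Valuation (MvPolynomial (Fin M) ℤ) NNReal) :
    Prop :=
  (∀ c : ℤ, c ≠ 0 → w (C c) = 1) ∧ (∀ i, w (X i) ≤ 1) ∧ (∃ i, w (X i) = 1) ∧
    ∀ (P : MvPolynomial (Fin M) ℤ) (e : ℕ), P.IsHomogeneous e → (w P = 0 ↔ Vanishes G P)

/-- the differential of `P` at `z`, applied to `t` -/
noncomputable def dif {K : Type} [Field K] (P : MvPolynomial (Fin M) ℤ) (z t : Fin M → K) : K :=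
  ∑ c, aeval z (pderiv c P) * t c

/-- bounds for the forms `dx_J` in terms of logarithmic forms -/
def LogBound (G : Fin g → MvPolynomial (Fin M) ℤ) (N : ℕ)
    (w : Valuation (MvPolynomial (Fin M) ℤ) NNReal) (J : Fin (N + 1) → Fin M) (r : NNReal) : Prop :=
  ∃ (T e : ℕ) (q : MvPolynomial (Fin M) ℤ) (h : Fin T → MvPolynomial (Fin M) ℤ)
    (p : Fin T → Fin (N + 1) → MvPolynomial (Fin M) ℤ),
    q.IsHomogeneous e ∧ w q ≠ 0 ∧
    (∀ k, (h k).IsHomogeneous (e + (N + 1)) ∧ w (h k) ≤ r * w q) ∧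
    (∀ k i, (∃ d, (p k i).IsHomogeneous d) ∧ w (p k i) ≠ 0) ∧
    ∀ (z : Fin M → ℂ) (t : Fin (N + 1) → Fin M → ℂ), (∀ k, aeval z (G k) = 0) →
      (∀ i k, dif (G k) z (t i) = 0) → aeval z q ≠ 0 → (∀ k i, aeval z (p k i) ≠ 0) →
      (Matrix.of fun i j => t i (J j)).det =
        ∑ k, aeval z (h k) / aeval z q *
          (Matrix.of fun i j => dif (p k j) z (t i) / aeval z (p k j)).det

/-- `r` is at least the norm `exp (-A(w))` of the canonical sheaf -/
def DiscLE (G : Fin g → MvPolynomial (Fin M) ℤ) (N : ℕ)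
    (w : Valuation (MvPolynomial (Fin M) ℤ) NNReal) (r : NNReal) : Prop :=
  ∀ (J : Fin (N + 1) → Fin M) (r' : NNReal), r < r' → LogBound G N w J r'

/-- the multiplier ideal -/
def InMult (G : Fin g → MvPolynomial (Fin M) ℤ) (N : ℕ) {a : ℕ}
    (f : Fin a → MvPolynomial (Fin M) ℤ) (u : MvPolynomial (Fin M) ℤ) : Prop :=
  ∀ w : Valuation (MvPolynomial (Fin M) ℤ) NNReal, IsPlace G w →
    ∃ r : NNReal, DiscLE G N w r ∧ w u * r ≤ ⨆ j, w (f j)

end

lemma eq_zero_of_pow_eq_zero' {K : Type} [Field K] {a : K} {n : ℕ} (h : a ^ n = 0) : a = 0 := by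
  by_contra h0
  exact pow_ne_zero n h0 h

/-- the Nullstellensatz over all fields -/
theorem nullst {σ : Type} [Finite σ] (E : Set (MvPolynomial σ ℚ)) (Ψ : MvPolynomial σ ℚ)
    (h : ∀ z : σ → ℂ, (∀ e ∈ E, aeval z e = 0) → aeval z Ψ = 0) {K : Type} [Field K] [Algebra ℚ K]
    (x : σ → K) (hx : ∀ e ∈ E, aeval x e = 0) : aeval x Ψ = 0 := by
  have h1 : Ψ ∈ (Ideal.span E).radical := by
    rw [← vanishingIdeal_zeroLocus_eq_radical (K := ℂ), mem_vanishingIdeal_iff]
    intro z hz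
    rw [mem_zeroLocus_iff] at hz
    exact h z fun e he => hz _ (Ideal.subset_span he)
  obtain ⟨n, hn⟩ := h1
  have h2 : Ideal.span E ≤ RingHom.ker (aeval x : MvPolynomial σ ℚ →ₐ[ℚ] K) := by
    rw [Ideal.span_le]
    intro e he
    exact hx e he
  have h3 : aeval x (Ψ ^ n) = 0 := h2 hn
  rw [map_pow] at h3
  exact eq_zero_of_pow_eq_zero' h3

section

variable {M : ℕ} {σ : Type} {K : Type} [Field K] [Algebra ℚ K]

/-- a polynomial in the first variables -/
noncomputable def up (P : MvPolynomial (Fin M) ℤ) : MvPolynomial (Fin M ⊕ σ) ℚ :=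
  rename Sum.inl (map (Int.castRingHom ℚ) P)

lemma aeval_up (P : MvPolynomial (Fin M) ℤ) (y : Fin M ⊕ σ → K) :
    aeval y (up P) = aeval (fun c => y (Sum.inl c)) P := by
  unfold up
  rw [aeval_rename]
  exact aeval_map_algebraMap (R := ℤ) (A := ℚ) (B := K) _ P

end

section

variable {M g N T : ℕ}

/-- the variables: the point, the tangent vectors, the inverses -/
abbrev Vr (M N T : ℕ) : Type := Fin M ⊕ ((Fin (N + 1) × Fin M) ⊕ (Unit ⊕ (Fin T × Fin (N + 1))))

/-- the differential as a polynomial -/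
noncomputable def difP (P : MvPolynomial (Fin M) ℤ) (i : Fin (N + 1)) :
    MvPolynomial (Vr M N T) ℚ :=
  ∑ c, up (pderiv c P) * X (Sum.inr (Sum.inl (i, c)))

lemma aeval_difP {K : Type} [Field K] [Algebra ℚ K] (P : MvPolynomial (Fin M) ℤ) (i : Fin (N + 1))
    (y : Vr M N T → K) : aeval y (difP P i : MvPolynomial (Vr M N T) ℚ) =
      dif P (fun c => y (Sum.inl c)) (fun c => y (Sum.inr (Sum.inl (i, c)))) := by
  unfold difP dif
  rw [map_sum]
  refine Finset.sum_congr rfl fun c _ => ?_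
  rw [map_mul, aeval_up, aeval_X]

/-- the difference of the two sides -/
noncomputable def psi (J : Fin (N + 1) → Fin M) (h : Fin T → MvPolynomial (Fin M) ℤ)
    (p : Fin T → Fin (N + 1) → MvPolynomial (Fin M) ℤ) : MvPolynomial (Vr M N T) ℚ :=
  (Matrix.of fun i j => (X (Sum.inr (Sum.inl (i, J j))) : MvPolynomial (Vr M N T) ℚ)).det -
    ∑ k, up (h k) * X (Sum.inr (Sum.inr (Sum.inl ()))) *
      (Matrix.of fun i j => (difP (p k j) i : MvPolynomial (Vr M N T) ℚ) *
        X (Sum.inr (Sum.inr (Sum.inr (k, j))))).det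

lemma aeval_det {σ K : Type} [Field K] [Algebra ℚ K] {k : ℕ}
    (A : Fin k → Fin k → MvPolynomial σ ℚ) (y : σ → K) :
    aeval y (Matrix.of fun i j => A i j).det = (Matrix.of fun i j => aeval y (A i j)).det := by
  rw [AlgHom.map_det]
  rfl

lemma aeval_psi {K : Type} [Field K] [Algebra ℚ K] (J : Fin (N + 1) → Fin M)
    (h : Fin T → MvPolynomial (Fin M) ℤ) (p : Fin T → Fin (N + 1) → MvPolynomial (Fin M) ℤ)
    (y : Vr M N T → K) : aeval y (psi J h p) =
      (Matrix.of fun i j => y (Sum.inr (Sum.inl (i, J j)))).det -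
        ∑ k, aeval (fun c => y (Sum.inl c)) (h k) * y (Sum.inr (Sum.inr (Sum.inl ()))) *
          (Matrix.of fun i j => dif (p k j) (fun c => y (Sum.inl c))
            (fun c => y (Sum.inr (Sum.inl (i, c)))) *
              y (Sum.inr (Sum.inr (Sum.inr (k, j))))).det := by
  unfold psi
  rw [map_sub, aeval_det, map_sum]
  congr 1
  · simp only [aeval_X]
  · refine Finset.sum_congr rfl fun k _ => ?_
    rw [map_mul, map_mul, aeval_up, aeval_X, aeval_det]
    simp only [map_mul, aeval_difP, aeval_X]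

/-- **transfer of an identity of differential forms** -/
theorem transfer (G : Fin g → MvPolynomial (Fin M) ℤ) (J : Fin (N + 1) → Fin M)
    (q : MvPolynomial (Fin M) ℤ) (h : Fin T → MvPolynomial (Fin M) ℤ)
    (p : Fin T → Fin (N + 1) → MvPolynomial (Fin M) ℤ)
    (H : ∀ (z : Fin M → ℂ) (t : Fin (N + 1) → Fin M → ℂ), (∀ k, aeval z (G k) = 0) →
      (∀ i k, dif (G k) z (t i) = 0) → aeval z q ≠ 0 → (∀ k i, aeval z (p k i) ≠ 0) →
      (Matrix.of fun i j => t i (J j)).det =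
        ∑ k, aeval z (h k) / aeval z q *
          (Matrix.of fun i j => dif (p k j) z (t i) / aeval z (p k j)).det)
    {K : Type} [Field K] [Algebra ℚ K] (z : Fin M → K) (t : Fin (N + 1) → Fin M → K)
    (hz : ∀ k, aeval z (G k) = 0) (ht : ∀ i k, dif (G k) z (t i) = 0) (hq : aeval z q ≠ 0)
    (hp : ∀ k i, aeval z (p k i) ≠ 0) :
    (Matrix.of fun i j => t i (J j)).det =
      ∑ k, aeval z (h k) / aeval z q *
        (Matrix.of fun i j => dif (p k j) z (t i) / aeval z (p k j)).det := by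
  classical
  obtain ⟨E, hE⟩ : ∃ E : Set (MvPolynomial (Vr M N T) ℚ), E =
      (Set.range fun k => up (G k)) ∪ (Set.range fun ik : Fin (N + 1) × Fin g =>
        difP (G ik.2) ik.1) ∪ {up q * X (Sum.inr (Sum.inr (Sum.inl ()))) - 1} ∪
        (Set.range fun kj : Fin T × Fin (N + 1) =>
          up (p kj.1 kj.2) * X (Sum.inr (Sum.inr (Sum.inr kj))) - 1) := ⟨_, rfl⟩
  have key : ∀ {F : Type} [Field F] [Algebra ℚ F] (y : Vr M N T → F), (∀ e ∈ E, aeval y e = 0) ↔
      (∀ k, aeval (fun c => y (Sum.inl c)) (G k) = 0) ∧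
      (∀ i k, dif (G k) (fun c => y (Sum.inl c)) (fun c => y (Sum.inr (Sum.inl (i, c)))) = 0) ∧
      aeval (fun c => y (Sum.inl c)) q * y (Sum.inr (Sum.inr (Sum.inl ()))) = 1 ∧
      ∀ k j, aeval (fun c => y (Sum.inl c)) (p k j) *
        y (Sum.inr (Sum.inr (Sum.inr (k, j)))) = 1 := by
    intro F _ _ y
    rw [hE]
    constructor
    · intro h1
      refine ⟨fun k => ?_, fun i k => ?_, ?_, fun k j => ?_⟩
      · have h2 := h1 (up (G k)) (Or.inl (Or.inl (Or.inl ⟨k, rfl⟩)))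
        rwa [aeval_up] at h2
      · have h2 := h1 (difP (G k) i) (Or.inl (Or.inl (Or.inr ⟨(i, k), rfl⟩)))
        rwa [aeval_difP] at h2
      · have h2 := h1 _ (Or.inl (Or.inr rfl))
        rwa [map_sub, map_mul, aeval_up, aeval_X, map_one, sub_eq_zero] at h2
      · have h2 := h1 _ (Or.inr ⟨(k, j), rfl⟩)
        simp only at h2
        rwa [map_sub, map_mul, aeval_up, aeval_X, map_one, sub_eq_zero] at h2
    · rintro ⟨h1, h2, h3, h4⟩ e (((⟨k, rfl⟩ | ⟨⟨i, k⟩, rfl⟩) | he) | ⟨⟨k, j⟩, rfl⟩)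
      · rw [aeval_up]; exact h1 k
      · rw [aeval_difP]; exact h2 i k
      · rw [Set.mem_singleton_iff] at he
        rw [he, map_sub, map_mul, aeval_up, aeval_X, map_one, sub_eq_zero]
        exact h3
      · simp only
        rw [map_sub, map_mul, aeval_up, aeval_X, map_one, sub_eq_zero]
        exact h4 k j
  obtain ⟨y, hy⟩ : ∃ y : Vr M N T → K, y = Sum.elim z (Sum.elim (fun ic => t ic.1 ic.2)
      (Sum.elim (fun _ => (aeval z q)⁻¹) (fun kj => (aeval z (p kj.1 kj.2))⁻¹))) := ⟨_, rfl⟩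
  have h1 := nullst E (psi J h p) (by
    intro y hy
    obtain ⟨h1, h2, h3, h4⟩ := (key y).1 hy
    have h5 : aeval (fun c => y (Sum.inl c)) q ≠ 0 := left_ne_zero_of_mul (by
      rw [h3]; exact one_ne_zero)
    have h6 : ∀ k j, aeval (fun c => y (Sum.inl c)) (p k j) ≠ 0 := fun k j =>
      left_ne_zero_of_mul (by rw [h4 k j]; exact one_ne_zero)
    have h7 := H (fun c => y (Sum.inl c)) (fun i c => y (Sum.inr (Sum.inl (i, c)))) h1
      (fun i k => h2 i k) h5 h6
    rw [aeval_psi, h7, sub_eq_zero]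
    refine Finset.sum_congr rfl fun k _ => ?_
    rw [div_eq_mul_inv, eq_inv_of_mul_eq_one_right h3]
    congr 2
    ext i j
    rw [Matrix.of_apply, Matrix.of_apply, div_eq_mul_inv, eq_inv_of_mul_eq_one_right (h4 k j)])
    y ((key y).2 (by
      rw [hy]
      refine ⟨hz, ht, ?_, fun k j => ?_⟩
      · exact mul_inv_cancel₀ hq
      · exact mul_inv_cancel₀ (hp k j)))
  rw [aeval_psi, sub_eq_zero, hy] at h1
  simp only [Sum.elim_inl, Sum.elim_inr] at h1
  rw [h1]
  refine Finset.sum_congr rfl fun k _ => ?_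
  rw [div_eq_mul_inv]
  congr 2
  ext i j
  rw [Matrix.of_apply, Matrix.of_apply, div_eq_mul_inv]

end

end Pool.Agent.Y731.MI
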