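import Mathlib
import Pool.Agent.TH551.HA.Jq4
import Pool.Agent.Y731.MI.Core
import Pool.Agent.Y731.MI.Lim
import Pool.Agent.Y731.MI.Null

/-!
# Multiplier ideals: the valuations and the bounds at the places
-/

set_option autoImplicit false
set_option linter.unusedSectionVars false
set_option linter.unusedVariables false

namespace Pool.Agent.Y731.MI

open Filter Topology Pool.Agent.TH932.Germs Pool.Agent.TH551.SU Pool.Agent.TH551.ZP
open Pool.Agent.TH551.SU.CRV Pool.Agent.TH551.ZP.GT MvPolynomial Pool.Agent.TH551.HA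
open Pool.Agent.TH551.HA.P1 (DP_sum rat_mem DP_const AQ AD qi_int dom_of_le)
open Pool.Agent.TH551.HA.Ci (aeval_gmn)
open Pool.Agent.Y731.GV

section

variable {s' : ℕ} {b : Fin s' → ℕ} {L : ℕ → ℝ}

lemma lmv_congr {v : Option (Fin s')} {p q : ℕ → ℚ} (h : ∀ᶠ t in (UU : Filter ℕ), p t = q t) :
    lmv b v L p = lmv b v L q := by
  unfold lmv limUnder
  congr 1
  refine Filter.map_congr ?_
  filter_upwards [h] with t ht
  rw [ht]

/-- an upper bound for quotients -/
lemma ev_div_le (hb : ∀ v, (b v).Prime) (hL : Tendsto L atTop atTop) {v : Option (Fin s')}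
    {p q : ℕ → ℚ} (hp : Md b v L p) (hq : Md b v L q) {r r' : ℝ} (hq0 : 0 < lmv b v L q)
    (h : lmv b v L p ≤ r * lmv b v L q) (hr : r < r') :
    ∀ᶠ t in (UU : Filter ℕ), av b v (p t / q t) ≤ r' ^ L t := by
  have h1 := (lmv_tendsto hb hL hp).div (lmv_tendsto hb hL hq) hq0.ne'
  have h2 : lmv b v L p / lmv b v L q < r' := by
    refine lt_of_le_of_lt ?_ hr
    rwa [div_le_iff₀ hq0]
  filter_upwards [h1.eventually_lt_const h2, ev_pos hL] with t h3 h4
  have e1 : av b v (p t / q t) = av b v (p t) / av b v (q t) := by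
    rw [div_eq_mul_inv, av_mul hb, av_inv hb, div_eq_mul_inv]
  have e2 : av b v (p t) ^ (1 / L t) / av b v (q t) ^ (1 / L t) =
      av b v (p t / q t) ^ (1 / L t) := by
    rw [e1, Real.div_rpow (av_nonneg hb _ _) (av_nonneg hb _ _)]
  have h3' : av b v (p t) ^ (1 / L t) / av b v (q t) ^ (1 / L t) < r' := h3
  rw [e2] at h3'
  have h5 : 0 ≤ av b v (p t / q t) ^ (1 / L t) := Real.rpow_nonneg (av_nonneg hb _ _) _
  calc av b v (p t / q t) = (av b v (p t / q t) ^ (1 / L t)) ^ L t := by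
        rw [← Real.rpow_mul (av_nonneg hb _ _), one_div, inv_mul_cancel₀ h4.ne', Real.rpow_one]
    _ ≤ r' ^ L t := Real.rpow_le_rpow h5 h3'.le h4.le

/-- evaluation at the normalised point -/
noncomputable def phi {n : ℕ} (x : Fin n → ℕ → ℤ) (a : Fin n) :
    MvPolynomial (Fin n) ℤ →+* (ℕ → ℚ) :=
  RingHom.pi fun t => ((aeval fun c => (x c t : ℚ) / (x a t : ℚ)) :
    MvPolynomial (Fin n) ℤ →ₐ[ℤ] ℚ).toRingHom

lemma phi_apply {n : ℕ} (x : Fin n → ℕ → ℤ) (a : Fin n) (P : MvPolynomial (Fin n) ℤ) (t : ℕ) :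
    phi x a P t = aeval (fun c => (x c t : ℚ) / (x a t : ℚ)) P := rfl

lemma md_phi (hb : ∀ v, (b v).Prime) (hL : Tendsto L atTop atTop) {n : ℕ} (x : Fin n → ℕ → ℤ)
    (a : Fin n) (v : Option (Fin s'))
    (ha : ∀ᶠ t in (UU : Filter ℕ), ∀ c, av b v (x c t : ℚ) ≤ av b v (x a t : ℚ))
    (P : MvPolynomial (Fin n) ℤ) : Md b v L (phi x a P) := by
  have h1 : ∀ᶠ t in (UU : Filter ℕ), 1 ≤ L t := ev_of_atTop (hL.eventually_ge_atTop 1)
  induction P using MvPolynomial.induction_on with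
  | C c =>
    refine ⟨Real.log (max 1 (av b v (c : ℚ))), ?_⟩
    filter_upwards [h1] with t h2
    rw [phi_apply, aeval_C]
    have h3 : 1 ≤ max 1 (av b v (c : ℚ)) := le_max_left _ _
    have h4 : Real.log (max 1 (av b v (c : ℚ))) ≤ Real.log (max 1 (av b v (c : ℚ))) * L t :=
      le_mul_of_one_le_right (Real.log_nonneg h3) h2
    calc av b v (algebraMap ℤ ℚ c) ≤ max 1 (av b v (c : ℚ)) := le_max_right _ _
      _ = Real.exp (Real.log (max 1 (av b v (c : ℚ)))) := (Real.exp_log (by linarith)).symm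
      _ ≤ _ := Real.exp_le_exp.2 h4
  | add p q hp hq =>
    obtain ⟨K, hK⟩ := hp
    obtain ⟨K', hK'⟩ := hq
    refine ⟨max K K' + 1, ?_⟩
    filter_upwards [h1, hK, hK'] with t h2 h3 h4
    rw [map_add]
    have h5 : Real.exp (K * L t) ≤ Real.exp (max K K' * L t) :=
      Real.exp_le_exp.2 (mul_le_mul_of_nonneg_right (le_max_left _ _) (by linarith))
    have h6 : Real.exp (K' * L t) ≤ Real.exp (max K K' * L t) :=
      Real.exp_le_exp.2 (mul_le_mul_of_nonneg_right (le_max_right _ _) (by linarith))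
    have h7 : (2 : ℝ) ≤ Real.exp (L t) := by
      have := Real.add_one_le_exp (L t)
      linarith
    calc av b v (phi x a p t + phi x a q t) ≤ av b v (phi x a p t) + av b v (phi x a q t) :=
          av_add hb _ _ _
      _ ≤ 2 * Real.exp (max K K' * L t) := by linarith
      _ ≤ Real.exp (L t) * Real.exp (max K K' * L t) :=
          mul_le_mul_of_nonneg_right h7 (Real.exp_pos _).le
      _ = _ := by
          rw [← Real.exp_add]
          congr 1
          ring
  | mul_X p i hp =>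
    obtain ⟨K, hK⟩ := hp
    refine ⟨K, ?_⟩
    filter_upwards [hK, ha] with t h2 h3
    have h4 : phi x a (p * X i) t = phi x a p t * ((x i t : ℚ) / (x a t : ℚ)) := by
      rw [phi_apply, map_mul, aeval_X, phi_apply]
    rw [h4, av_mul hb]
    refine (mul_le_of_le_one_right (av_nonneg hb _ _) ?_).trans h2
    rw [div_eq_mul_inv, av_mul hb, av_inv hb, ← div_eq_mul_inv]
    exact div_le_one_of_le₀ (h3 i) (av_nonneg hb _ _)

/-- the lower bound for the absolute values of nonzero integers -/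
lemma av_lower (hb : ∀ v, (b v).Prime) (hbi : Function.Injective b) (v : Option (Fin s')) (z : ℤ)
    (hz : z ≠ 0) (B : ℝ) (hB : |(z : ℝ)| ≤ B) : B⁻¹ ≤ av b v (z : ℚ) := by
  have h1 : (1 : ℝ) ≤ |(z : ℝ)| := by exact_mod_cast Int.one_le_abs hz
  have hB0 : 0 < B := by linarith
  cases v with
  | none =>
    have h2 : av b none (z : ℚ) = |(z : ℝ)| := by
      simp only [av]; push_cast; rfl
    rw [h2]
    calc B⁻¹ ≤ 1 := inv_le_one_of_one_le₀ (by linarith)
      _ ≤ _ := h1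
  | some v =>
    have h2 := one_le_prod_int hb hbi z hz
    rw [Fintype.prod_option] at h2
    have h3 : av b none (z : ℚ) = |(z : ℝ)| := by
      simp only [av]; push_cast; rfl
    rw [h3] at h2
    have h4 : ∏ v' : Fin s', av b (some v') (z : ℚ) ≤ av b (some v) (z : ℚ) := by
      rw [← Finset.mul_prod_erase _ _ (Finset.mem_univ v)]
      refine mul_le_of_le_one_right (av_nonneg hb _ _) ?_
      exact Finset.prod_le_one (fun _ _ => av_nonneg hb _ _) fun _ _ => av_int_le_one hb _ _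
    have h5 : 1 ≤ B * av b (some v) (z : ℚ) := by
      refine h2.trans ?_
      exact mul_le_mul hB h4 (Finset.prod_nonneg fun _ _ => av_nonneg hb _ _) hB0.le
    rw [inv_le_iff_one_le_mul₀ hB0, mul_comm]
    exact h5

lemma aevalZ {K : Type} [Field K] [Algebra ℚ K] {n : ℕ} (z : Fin n → K)
    (P : MvPolynomial (Fin n) ℤ) :
    aeval z P = aeval z (map (Int.castRingHom ℚ) P : MvPolynomial (Fin n) ℚ) :=
  (aeval_map_algebraMap (R := ℤ) (A := ℚ) (B := K) z P).symm

lemma aeval_scaleZ {K : Type} [Field K] [Algebra ℚ K] {n : ℕ} (P : MvPolynomial (Fin n) ℤ)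
    (e : ℕ) (hP : P.IsHomogeneous e) (z : Fin n → K) (c : K) :
    aeval (fun i => c * z i) P = c ^ e * aeval z P := by
  rw [aevalZ, aevalZ z]
  exact aeval_scale _ e (hP.map _) z c

lemma aeval_int {n : ℕ} (x : Fin n → ℤ) (P : MvPolynomial (Fin n) ℤ) :
    aeval (fun c => (x c : ℚ)) P = ((eval x P : ℤ) : ℚ) := by
  have h1 : (fun c => (x c : ℚ)) = (algebraMap ℤ ℚ) ∘ x := by
    funext c
    simp
  rw [h1, aeval_algebraMap_apply]
  rfl

lemma phi_hom {n : ℕ} (x : Fin n → ℕ → ℤ) (a : Fin n) (P : MvPolynomial (Fin n) ℤ) (e : ℕ)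
    (hP : P.IsHomogeneous e) (t : ℕ) :
    phi x a P t = ((x a t : ℚ)⁻¹) ^ e * ((eval (fun c => x c t) P : ℤ) : ℚ) := by
  rw [phi_apply, ← aeval_int, ← aeval_scaleZ P e hP]
  congr 1
  refine congrArg (fun z : Fin n → ℚ => (aeval z : MvPolynomial (Fin n) ℤ →ₐ[ℤ] ℚ)) ?_
  funext c
  rw [div_eq_inv_mul]

/-- the size of the values of a form -/
lemma eval_le {n : ℕ} (P : MvPolynomial (Fin n) ℤ) (e : ℕ) (hP : P.IsHomogeneous e) :
    ∃ c : ℝ, 1 ≤ c ∧ ∀ (x : Fin n → ℤ) (H : ℝ), 0 ≤ H → (∀ i, |(x i : ℝ)| ≤ H) →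
      |((eval x P : ℤ) : ℝ)| ≤ c * H ^ e := by
  refine ⟨1 + ∑ α ∈ (map (Int.castRingHom ℚ) P).support,
    |((coeff α (map (Int.castRingHom ℚ) P) : ℚ) : ℝ)|, ?_, fun x H hH hx => ?_⟩
  · have : 0 ≤ ∑ α ∈ (map (Int.castRingHom ℚ) P).support,
      |((coeff α (map (Int.castRingHom ℚ) P) : ℚ) : ℝ)| := Finset.sum_nonneg fun _ _ => abs_nonneg _
    linarith
  · have h1 := Pool.Agent.TH551.HA.Pn.aeval_bound (F := map (Int.castRingHom ℚ) P)
      (hP.map _) x H hx
    rw [← aevalZ, aeval_int] at h1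
    have h2 : (((eval x P : ℤ) : ℚ) : ℝ) = ((eval x P : ℤ) : ℝ) := by push_cast; rfl
    rw [h2] at h1
    have h3 : 0 ≤ H ^ e := pow_nonneg hH e
    linarith

end

end Pool.Agent.Y731.MI
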