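import Mathlib
import Pool.Agent.Y731.MI.Place

/-!
# Multiplier ideals: the valuations and the bounds at the places, continued
-/

set_option autoImplicit false
set_option linter.unusedSectionVars false
set_option linter.unusedVariables false

namespace Pool.Agent.Y731.MI

open Filter Topology Pool.Agent.TH932.Germs Pool.Agent.TH551.SU Pool.Agent.TH551.ZP
open Pool.Agent.TH551.SU.CRV Pool.Agent.TH551.ZP.GT MvPolynomial Pool.Agent.TH551.HA
open Pool.Agent.TH551.HA.P1 (DP_sum rat_mem DP_const AQ AD qi_int dom_of_le)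
open Pool.Agent.TH551.HA.Ci (aeval_gmn pderiv_scale)
open Pool.Agent.Y731.GV

section

variable {s' : ℕ} {b : Fin s' → ℕ} {L : ℕ → ℝ}

/-- **the valuation is a real valuation of the function field** -/
theorem isPlace (hb : ∀ v, (b v).Prime) (hbi : Function.Injective b)
    (hL : Tendsto L atTop atTop) {n g : ℕ} (G : Fin g → MvPolynomial (Fin n) ℤ)
    (x : Fin n → ℕ → ℤ) (hX : ∀ t k, eval (fun c => x c t) (G k) = 0) (a : Fin n)
    (v : Option (Fin s'))
    (ha : ∀ᶠ t in (UU : Filter ℕ), ∀ c, av b v (x c t : ℚ) ≤ av b v (x a t : ℚ)) (K0 : ℝ)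
    (hxle : ∀ᶠ t in (UU : Filter ℕ), ∀ c, |(x c t : ℝ)| ≤ Real.exp (K0 * L t))
    (hxa : ∀ᶠ t in (UU : Filter ℕ), x a t ≠ 0)
    (hgen : ∀ (P : MvPolynomial (Fin n) ℤ) (e : ℕ), P.IsHomogeneous e → ¬ Vanishes G P →
      ∀ᶠ t in (UU : Filter ℕ), eval (fun c => x c t) P ≠ 0) :
    IsPlace G (gval hb hL v (phi x a) (md_phi hb hL x a v ha)) := by
  classical
  have hco : ∀ P, ((gval hb hL v (phi x a) (md_phi hb hL x a v ha) P : NNReal) : ℝ) =
    lmv b v L (phi x a P) := gval_coe hb hL v _ _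
  refine ⟨fun c hc => ?_, fun i => ?_, ⟨a, ?_⟩, fun P e hP => ⟨fun h0 => ?_, fun hV => ?_⟩⟩
  · refine NNReal.eq ?_
    rw [hco]
    have h1 : phi x a (C c) = fun _ => (c : ℚ) := by
      funext t
      rw [phi_apply, aeval_C]
      rfl
    rw [h1, lmv_const hb hL (by exact_mod_cast hc)]
    rfl
  · rw [← NNReal.coe_le_coe, hco, NNReal.coe_one]
    have h1 : lmv b v L (phi x a (X i)) ≤ Real.exp 0 := by
      refine lmv_le hb hL ?_
      filter_upwards [ha] with t ht
      rw [zero_mul, Real.exp_zero, phi_apply, aeval_X, div_eq_mul_inv, av_mul hb, av_inv hb,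
        ← div_eq_mul_inv]
      exact div_le_one_of_le₀ (ht i) (av_nonneg hb _ _)
    rwa [Real.exp_zero] at h1
  · refine NNReal.eq ?_
    rw [hco]
    have h1 : lmv b v L (phi x a (X a)) = lmv b v L (fun _ => (1 : ℚ)) := by
      refine lmv_congr ?_
      filter_upwards [hxa] with t ht
      rw [phi_apply, aeval_X, div_self (by exact_mod_cast ht)]
    rw [h1, lmv_const hb hL one_ne_zero]
    rfl
  · -- the lower bound
    by_contra hV
    have h1 := hgen P e hP hV
    obtain ⟨c, hc1, hc⟩ := eval_le P e hP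
    have h2 : Real.exp (-(1 + 2 * (e * K0))) ≤ lmv b v L (phi x a P) := by
      refine le_lmv hb hL (md_phi hb hL x a v ha P) ?_
      have h3 : ∀ᶠ t in (UU : Filter ℕ), Real.log c ≤ L t :=
        ev_of_atTop (hL.eventually_ge_atTop _)
      filter_upwards [h1, hxle, hxa, h3] with t h4 h5 h6 h7
      rw [phi_hom x a P e hP, av_mul hb, av_pow hb, av_inv hb]
      have h8 := hc (fun c => x c t) (Real.exp (K0 * L t)) (Real.exp_pos _).le h5
      have h9 : c * Real.exp (K0 * L t) ^ e ≤ Real.exp ((1 + e * K0) * L t) := by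
        rw [← Real.exp_nat_mul]
        calc c * Real.exp (e * (K0 * L t)) = Real.exp (Real.log c) * Real.exp (e * (K0 * L t)) := by
              rw [Real.exp_log (by linarith)]
          _ ≤ Real.exp (L t) * Real.exp (e * (K0 * L t)) :=
              mul_le_mul_of_nonneg_right (Real.exp_le_exp.2 h7) (Real.exp_pos _).le
          _ = _ := by
              rw [← Real.exp_add]
              congr 1
              ring
      have h10 := av_lower hb hbi v (eval (fun c => x c t) P) h4 _ (h8.trans h9)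
      rw [← Real.exp_neg] at h10
      have h11 : av b v (x a t : ℚ) ≤ max (Real.exp (K0 * L t)) 1 := by
        cases v with
        | none =>
          refine le_max_of_le_left ?_
          have h12 : av b none (x a t : ℚ) = |(x a t : ℝ)| := by
            simp only [av]; push_cast; rfl
          rw [h12]
          exact h5 a
        | some v => exact le_max_of_le_right (av_int_le_one hb v _)
      have h12 : 1 ≤ Real.exp (K0 * L t) := by
        have h13 := h5 a
        have h14 : (1 : ℝ) ≤ |(x a t : ℝ)| := by exact_mod_cast Int.one_le_abs h6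
        linarith
      rw [max_eq_left h12] at h11
      have h13 : 0 < av b v (x a t : ℚ) := av_pos hb v (by exact_mod_cast h6)
      have h14 : Real.exp (-(e * K0 * L t)) ≤ (av b v (x a t : ℚ))⁻¹ ^ e := by
        have h15 : Real.exp (-(K0 * L t)) ≤ (av b v (x a t : ℚ))⁻¹ := by
          rw [Real.exp_neg]
          exact inv_anti₀ h13 h11
        calc Real.exp (-(e * K0 * L t)) = Real.exp (-(K0 * L t)) ^ e := by
              rw [← Real.exp_nat_mul]
              congr 1
              ring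
          _ ≤ _ := pow_le_pow_left₀ (Real.exp_pos _).le h15 e
      calc Real.exp (-(1 + 2 * (e * K0)) * L t) =
            Real.exp (-(e * K0 * L t)) * Real.exp (-((1 + e * K0) * L t)) := by
            rw [← Real.exp_add]
            congr 1
            ring
        _ ≤ _ := mul_le_mul h14 h10 (Real.exp_pos _).le (pow_nonneg (inv_nonneg.2 h13.le) _)
    have h3 : lmv b v L (phi x a P) = 0 := by
      rw [← hco, h0]
      rfl
    rw [h3] at h2
    exact absurd h2 (not_le.2 (Real.exp_pos _))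
  · refine NNReal.eq ?_
    rw [hco]
    refine lmv_zero hb hL (Eventually.of_forall fun t => ?_)
    have h1 : eval (fun c => x c t) P = 0 := by
      have h2 := hV (fun c => ((x c t : ℚ) : ℂ)) (fun k => by
        have h3 : (fun c => ((x c t : ℚ) : ℂ)) = (algebraMap ℚ ℂ) ∘ fun c => (x c t : ℚ) := by
          funext c
          simp
        rw [h3, aeval_algebraMap_apply, aeval_int, hX, Int.cast_zero, map_zero])
      have h3 : (fun c => ((x c t : ℚ) : ℂ)) = (algebraMap ℚ ℂ) ∘ fun c => (x c t : ℚ) := by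
        funext c
        simp
      rw [h3, aeval_algebraMap_apply, aeval_int] at h2
      have h4 := (algebraMap ℚ ℂ).injective (h2.trans (map_zero _).symm)
      exact_mod_cast h4
    rw [phi_hom x a P e hP, h1, Int.cast_zero, mul_zero]

/-- **the bound at a place** -/
theorem placeBound (hb : ∀ v, (b v).Prime) (hbi : Function.Injective b)
    (hL : Tendsto L atTop atTop) {n g m T : ℕ} (G : Fin g → MvPolynomial (Fin n) ℤ)
    (dG : Fin g → ℕ) (hG : ∀ k, (G k).IsHomogeneous (dG k))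
    (x : Fin n → ℕ → ℤ) (hX : ∀ t k, eval (fun c => x c t) (G k) = 0) (a : Fin n)
    (v : Option (Fin s'))
    (ha : ∀ᶠ t in (UU : Filter ℕ), ∀ c, av b v (x c t : ℚ) ≤ av b v (x a t : ℚ))
    (hxa : ∀ᶠ t in (UU : Filter ℕ), x a t ≠ 0) (d : ℕ)
    (R : Fin (m + 1) → Fin n → GG)
    (htan : ∀ ρ k, ∑ c, R ρ c * aeval (fun c => gm (fun t => (x c t : ℚ)))
      (pderiv c (map (Int.castRingHom ℚ) (G k))) = 0)
    (hdom : ∀ (H : MvPolynomial (Fin n) ℚ) (h0 : ℕ), H.IsHomogeneous h0 → h0 ≤ d →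
        ∀ ρ, Dom b L v
          (∑ c, R ρ c * aeval (fun c => gm (fun t => (x c t : ℚ))) (pderiv c H))
          (aeval (fun c => gm (fun t => (x c t : ℚ))) H))
    (J : Fin (m + 1) → Fin n) (q : MvPolynomial (Fin n) ℤ) (h : Fin T → MvPolynomial (Fin n) ℤ)
    (p : Fin T → Fin (m + 1) → MvPolynomial (Fin n) ℤ)
    (hpd : ∀ k i, ∃ e ≤ d, (p k i).IsHomogeneous e) (r r' : ℝ) (hrr : r < r') (hr' : 0 ≤ r')
    (hwq : 0 < lmv b v L (phi x a q)) (hwh : ∀ k, lmv b v L (phi x a (h k)) ≤
      r * lmv b v L (phi x a q)) (hwp : ∀ k i, 0 < lmv b v L (phi x a (p k i)))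
    (hid : ∀ (z : Fin n → ℂ) (t : Fin (m + 1) → Fin n → ℂ), (∀ k, aeval z (G k) = 0) →
      (∀ i k, dif (G k) z (t i) = 0) → aeval z q ≠ 0 → (∀ k i, aeval z (p k i) ≠ 0) →
      (Matrix.of fun i j => t i (J j)).det =
        ∑ k, aeval z (h k) / aeval z q *
          (Matrix.of fun i j => dif (p k j) z (t i) / aeval z (p k j)).det)
    (ε : ℝ) (hε : 0 < ε) :
    ∀ᶠ t in (UU : Filter ℕ), av b v (rep (Matrix.of fun ρ i => R ρ (J i)).det t) ≤
      Real.exp (ε * L t) * (r' ^ L t * av b v (x a t : ℚ) ^ (m + 1)) := by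
  classical
  have hmd := md_phi hb hL x a v ha
  obtain ⟨X', hX'⟩ : ∃ X' : Fin n → GG, X' = fun c => gm (fun t => (x c t : ℚ)) := ⟨_, rfl⟩
  rw [← hX'] at htan hdom
  have hXa : X' a ≠ 0 := by
    rw [hX']
    show gm (fun t => (x a t : ℚ)) ≠ 0
    rw [gm_ne_zero]
    exact hxa.mono fun t ht => by exact_mod_cast ht
  obtain ⟨l, hl⟩ : ∃ l, l = (X' a)⁻¹ := ⟨_, rfl⟩
  have hl0 : l ≠ 0 := by rw [hl]; exact inv_ne_zero hXa
  have hla : l * X' a = 1 := by rw [hl]; exact inv_mul_cancel₀ hXa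
  obtain ⟨xg, hxg⟩ : ∃ xg : Fin n → GG, xg = fun c => l * X' c := ⟨_, rfl⟩
  -- values at the point
  have hxgm : xg = fun c => gm (fun t => (x c t : ℚ) / (x a t : ℚ)) := by
    rw [hxg, hl, hX']
    funext c
    rw [gm_inv, gm_mul]
    congr 1
    funext t
    rw [div_eq_inv_mul]
  have hval : ∀ P : MvPolynomial (Fin n) ℤ, aeval xg P = gm (fun t => phi x a P t) := by
    intro P
    rw [aevalZ, hxgm, aeval_gmn]
    congr 1
    funext t
    rw [← aevalZ, phi_apply]
  have hnz : ∀ P : MvPolynomial (Fin n) ℤ, 0 < lmv b v L (phi x a P) → aeval xg P ≠ 0 := by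
    intro P hP h0
    rw [hval, ← gm_zero, gm_eq] at h0
    have h1 : lmv b v L (phi x a P) = 0 := lmv_zero hb hL h0
    linarith
  -- derivatives
  have hdif : ∀ (P : MvPolynomial (Fin n) ℤ) (e : ℕ), P.IsHomogeneous e → ∀ ρ,
      l * dif P xg (R ρ) = l ^ e * ∑ c, R ρ c * aeval X' (pderiv c (map (Int.castRingHom ℚ) P)) := by
    intro P e hP ρ
    unfold dif
    rw [Finset.mul_sum, Finset.mul_sum]
    refine Finset.sum_congr rfl fun c _ => ?_
    have h4 := pderiv_scale (map (Int.castRingHom ℚ) P) e (hP.map _) X' l c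
    have h5 : aeval xg (pderiv c P) = aeval (fun c => l * X' c)
        (pderiv c (map (Int.castRingHom ℚ) P)) := by
      rw [aevalZ, hxg, pderiv_map]
    rw [h5]
    linear_combination R ρ c * h4
  have hpe : ∀ (P : MvPolynomial (Fin n) ℤ) (e : ℕ), P.IsHomogeneous e → aeval xg P =
      l ^ e * aeval X' (map (Int.castRingHom ℚ) P) := by
    intro P e hP
    rw [hxg, aeval_scaleZ P e hP, aevalZ X']
  have hGx : ∀ k, aeval xg (G k) = 0 := by
    intro k
    rw [hval, ← gm_zero]
    congr 1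
    funext t
    rw [phi_hom x a _ _ (hG k), hX, Int.cast_zero, mul_zero]
  have hGd : ∀ ρ k, dif (G k) xg (R ρ) = 0 := by
    intro ρ k
    have h1 := hdif (G k) _ (hG k) ρ
    rw [htan, mul_zero] at h1
    exact (mul_eq_zero.1 h1).resolve_left hl0
  have key := transfer G J q h p hid xg R hGx hGd (hnz q hwq) fun k i => hnz _ (hwp k i)
  -- the logarithmic derivatives
  have hκ : ∀ k j, ∃ κ : Fin (m + 1) → GG, (∀ i, κ i ∈ AD hb hbi hL v) ∧
      ∀ i, dif (p k j) xg (R i) / aeval xg (p k j) = X' a * κ i := by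
    intro k j
    obtain ⟨e, he, hpe'⟩ := hpd k j
    have h0 : aeval X' (map (Int.castRingHom ℚ) (p k j)) ≠ 0 := by
      have h1 := hnz _ (hwp k j)
      rw [hpe _ e hpe'] at h1
      exact right_ne_zero_of_mul h1
    refine ⟨fun i => (aeval X' (map (Int.castRingHom ℚ) (p k j)))⁻¹ *
      ∑ c, R i c * aeval X' (pderiv c (map (Int.castRingHom ℚ) (p k j))), fun i => ?_, fun i => ?_⟩
    · have h1 := Dom.mul hb (Dom.refl hb hL v (aeval X' (map (Int.castRingHom ℚ) (p k j)))⁻¹)
        (hdom (map (Int.castRingHom ℚ) (p k j)) e (hpe'.map _) he i)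
      rw [inv_mul_cancel₀ h0] at h1
      exact h1
    · have h1 := hdif (p k j) e hpe' i
      rw [hpe _ e hpe']
      have h2 : dif (p k j) xg (R i) = X' a * (l ^ e *
          ∑ c, R i c * aeval X' (pderiv c (map (Int.castRingHom ℚ) (p k j)))) := by
        rw [← h1, ← mul_assoc, mul_comm (X' a) l, hla, one_mul]
      rw [h2]
      have h3 : l ^ e ≠ 0 := pow_ne_zero _ hl0
      field_simp
  choose κ hκ1 hκ2 using hκ
  have hω : ∀ k, (Matrix.of fun i j => κ k j i).det ∈ AD hb hbi hL v := by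
    intro k
    rw [Matrix.det_apply]
    refine (AD hb hbi hL v).sum_mem fun σ _ => ?_
    rw [Units.smul_def, zsmul_eq_mul]
    exact (AD hb hbi hL v).mul_mem (intCast_mem _ _)
      ((AD hb hbi hL v).prod_mem fun c _ => hκ1 _ _ _)
  have hdet : ∀ k, (Matrix.of fun i j => dif (p k j) xg (R i) / aeval xg (p k j)).det =
      X' a ^ (m + 1) * (Matrix.of fun i j => κ k j i).det := by
    intro k
    have h1 : (Matrix.of fun i j => dif (p k j) xg (R i) / aeval xg (p k j)) =
        X' a • (Matrix.of fun i j => κ k j i) := by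
      ext i j
      simp [hκ2]
    rw [h1, Matrix.det_smul, Fintype.card_fin]
  simp only [hdet] at key
  have hgerm : (Matrix.of fun ρ i => R ρ (J i)).det = gm (fun t => ∑ k,
      (phi x a (h k) t / phi x a q t) * ((x a t : ℚ) ^ (m + 1) *
        rep (Matrix.of fun i j => κ k j i).det t)) := by
    rw [key, ← gm_sum']
    refine Finset.sum_congr rfl fun k _ => ?_
    rw [← gm_mul, ← gm_mul, gm_rep, hval, hval, hX', ← gm_pow]
    congr 1
  have hT : ∀ᶠ t in (UU : Filter ℕ), (T : ℝ) ≤ Real.exp (ε / 2 * L t) := by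
    have h1 : ∀ᶠ t in (UU : Filter ℕ), (T : ℝ) / (ε / 2) ≤ L t :=
      ev_of_atTop (hL.eventually_ge_atTop _)
    filter_upwards [h1] with t h2
    rw [div_le_iff₀ (by positivity)] at h2
    have := Real.add_one_le_exp (ε / 2 * L t)
    linarith
  have hquot : ∀ k, ∀ᶠ t in (UU : Filter ℕ), av b v (phi x a (h k) t / phi x a q t) ≤
      r' ^ L t := fun k => ev_div_le hb hL (hmd _) (hmd _) hwq (hwh k) hrr
  have hωd : ∀ k, ∀ᶠ t in (UU : Filter ℕ), av b v (rep (Matrix.of fun i j => κ k j i).det t) ≤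
      Real.exp (ε / 2 * L t) := by
    intro k
    have h1 : Dom b L v (Matrix.of fun i j => κ k j i).det 1 := hω k
    filter_upwards [h1 (ε / 2) (by positivity), rep_one] with t h2 h3
    rw [h3, av_one hb, mul_one] at h2
    exact h2
  filter_upwards [hT, eventually_all.2 hquot, eventually_all.2 hωd, rep_gm (fun t => ∑ k,
      (phi x a (h k) t / phi x a q t) * ((x a t : ℚ) ^ (m + 1) *
        rep (Matrix.of fun i j => κ k j i).det t))] with t h1 h2 h3 h4
  rw [hgerm, h4]
  have hr0 : 0 ≤ r' ^ L t := Real.rpow_nonneg hr' _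
  have hx0 : 0 ≤ av b v (x a t : ℚ) ^ (m + 1) := pow_nonneg (av_nonneg hb _ _) _
  have h5 : ∀ (A : Finset (Fin T)) (y : Fin T → ℚ), av b v (∑ k ∈ A, y k) ≤
      ∑ k ∈ A, av b v (y k) := by
    intro A y
    induction A using Finset.induction_on with
    | empty => rw [Finset.sum_empty, Finset.sum_empty, av_zero hb]
    | insert i A hi ih =>
      rw [Finset.sum_insert hi, Finset.sum_insert hi]
      exact (av_add hb _ _ _).trans (add_le_add le_rfl ih)
  refine (h5 _ _).trans ?_
  have h6 : ∀ k ∈ (Finset.univ : Finset (Fin T)), av b v ((phi x a (h k) t / phi x a q t) *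
      ((x a t : ℚ) ^ (m + 1) * rep (Matrix.of fun i j => κ k j i).det t)) ≤
      r' ^ L t * (av b v (x a t : ℚ) ^ (m + 1) * Real.exp (ε / 2 * L t)) := by
    intro k _
    rw [av_mul hb, av_mul hb, av_pow hb]
    exact mul_le_mul (h2 k) (mul_le_mul_of_nonneg_left (h3 k) hx0)
      (mul_nonneg hx0 (av_nonneg hb _ _)) hr0
  refine (Finset.sum_le_sum h6).trans ?_
  rw [Finset.sum_const, Finset.card_univ, Fintype.card_fin, nsmul_eq_mul]
  have h7 : Real.exp (ε * L t) = Real.exp (ε / 2 * L t) * Real.exp (ε / 2 * L t) := by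
    rw [← Real.exp_add]
    congr 1
    ring
  rw [h7]
  have h8 : 0 ≤ r' ^ L t * (av b v (x a t : ℚ) ^ (m + 1) * Real.exp (ε / 2 * L t)) :=
    mul_nonneg hr0 (mul_nonneg hx0 (Real.exp_pos _).le)
  calc (T : ℝ) * (r' ^ L t * (av b v (x a t : ℚ) ^ (m + 1) * Real.exp (ε / 2 * L t))) ≤
        Real.exp (ε / 2 * L t) * (r' ^ L t * (av b v (x a t : ℚ) ^ (m + 1) *
          Real.exp (ε / 2 * L t))) := mul_le_mul_of_nonneg_right h1 h8
    _ = _ := by ring

/-- the trivial bound at a place -/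
theorem trivBound (hb : ∀ v, (b v).Prime) (hbi : Function.Injective b)
    (hL : Tendsto L atTop atTop) {n m : ℕ} (x : Fin n → ℕ → ℤ) (a : Fin n)
    (v : Option (Fin s'))
    (ha : ∀ᶠ t in (UU : Filter ℕ), ∀ c, av b v (x c t : ℚ) ≤ av b v (x a t : ℚ))
    (hxa : ∀ᶠ t in (UU : Filter ℕ), x a t ≠ 0) (d : ℕ) (hd : 1 ≤ d)
    (R : Fin (m + 1) → Fin n → GG)
    (hdom : ∀ (H : MvPolynomial (Fin n) ℚ) (h0 : ℕ), H.IsHomogeneous h0 → h0 ≤ d →
        ∀ ρ, Dom b L v
          (∑ c, R ρ c * aeval (fun c => gm (fun t => (x c t : ℚ))) (pderiv c H))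
          (aeval (fun c => gm (fun t => (x c t : ℚ))) H))
    (J : Fin (m + 1) → Fin n) (ε : ℝ) (hε : 0 < ε) :
    ∀ᶠ t in (UU : Filter ℕ), av b v (rep (Matrix.of fun ρ i => R ρ (J i)).det t) ≤
      Real.exp (ε * L t) * (1 ^ L t * av b v (x a t : ℚ) ^ (m + 1)) := by
  classical
  have hXa : gm (fun t => (x a t : ℚ)) ≠ 0 := by
    rw [gm_ne_zero]
    exact hxa.mono fun t ht => by exact_mod_cast ht
  have h1 : ∀ ρ c, Dom b L v (R ρ c) (gm (fun t => (x a t : ℚ))) := by
    intro ρ c
    have h2 := hdom (X c) 1 (isHomogeneous_X _ _) hd ρ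
    rw [aeval_X] at h2
    have h3 : ∑ c', R ρ c' * aeval (fun c => gm (fun t => (x c t : ℚ)))
        (pderiv c' (X c : MvPolynomial (Fin n) ℚ)) = R ρ c := by
      rw [Finset.sum_eq_single c]
      · rw [pderiv_X_self, map_one, mul_one]
      · intro c' _ hc'
        rw [pderiv_X_of_ne hc'.symm, map_zero, mul_zero]
      · intro h; exact absurd (Finset.mem_univ _) h
    rw [h3] at h2
    exact Dom.trans hb h2 (dom_of_le hb hL v (x a) (x c) (ha.mono fun t ht => ht c))
  obtain ⟨l, hl⟩ : ∃ l, l = (gm (fun t => (x a t : ℚ)))⁻¹ := ⟨_, rfl⟩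
  have hla : l * gm (fun t => (x a t : ℚ)) = 1 := by rw [hl]; exact inv_mul_cancel₀ hXa
  have h2 : ∀ ρ c, l * R ρ c ∈ AD hb hbi hL v := by
    intro ρ c
    have h3 := Dom.mul hb (Dom.refl hb hL v l) (h1 ρ c)
    rw [hla] at h3
    exact h3
  have h3 : (Matrix.of fun ρ i => l * R ρ (J i)).det ∈ AD hb hbi hL v := by
    rw [Matrix.det_apply]
    refine (AD hb hbi hL v).sum_mem fun σ _ => ?_
    rw [Units.smul_def, zsmul_eq_mul]
    exact (AD hb hbi hL v).mul_mem (intCast_mem _ _)
      ((AD hb hbi hL v).prod_mem fun c _ => h2 _ _)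
  have h4 : (Matrix.of fun ρ i => R ρ (J i)).det = gm (fun t => (x a t : ℚ)) ^ (m + 1) *
      (Matrix.of fun ρ i => l * R ρ (J i)).det := by
    have h5 : (Matrix.of fun ρ i => R ρ (J i)) = gm (fun t => (x a t : ℚ)) •
        (Matrix.of fun ρ i => l * R ρ (J i)) := by
      ext i j
      rw [Matrix.smul_apply, Matrix.of_apply, Matrix.of_apply, smul_eq_mul, ← mul_assoc,
        mul_comm _ l, hla, one_mul]
    conv_lhs => rw [h5]
    rw [Matrix.det_smul, Fintype.card_fin]
  have h5 : Dom b L v (Matrix.of fun ρ i => l * R ρ (J i)).det 1 := h3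
  have h6 := Dom.mul hb (Dom.refl hb hL v (gm (fun t => (x a t : ℚ)) ^ (m + 1))) h5
  rw [← h4, mul_one] at h6
  filter_upwards [h6 ε hε, rep_pow (gm (fun t => (x a t : ℚ))) (m + 1),
    rep_gm (fun t => (x a t : ℚ))] with t h7 h8 h9
  rw [h8, h9, av_pow hb] at h7
  rw [Real.one_rpow, one_mul]
  exact h7

end

end Pool.Agent.Y731.MI
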