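import Mathlib
import Pool.Agent.TH551.HA.Jr3
import Pool.Agent.Y731.GV.Par

/-!
# Multiplier ideals: tangent vectors which are logarithmic along everything
-/

set_option autoImplicit false
set_option linter.unusedSectionVars false
set_option linter.unusedVariables false

namespace Pool.Agent.Y731.MI

open Filter Topology Pool.Agent.TH932.Germs Pool.Agent.TH551.SU Pool.Agent.TH551.ZP
open Pool.Agent.TH551.SU.CRV Pool.Agent.TH551.ZP.GT MvPolynomial Pool.Agent.TH551.HA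
open Pool.Agent.TH551.HA.P1 (DP_sum rat_mem DP_const AQ AD qi_int dom_of_le)
open Pool.Agent.TH551.HA.Pn (eval_aeval lift_aeval chain hom_sum)
open Pool.Agent.TH551.HA.Ci (aeval_gmn)

section

variable {s' : ℕ} {b : Fin s' → ℕ} {L : ℕ → ℝ} {r : ℕ} {hL : Tendsto L atTop atTop}
  {U : Fin (r + 1) → GG} {l : Fin (r + 1) → ℕ} {d : ℕ}

/-- **the table** of tangent vectors, logarithmic along all forms of degree at most `d` -/
theorem logTable (hnc : NcStmt) (hcs : CSStmt) (hb : ∀ v, (b v).Prime)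
    (hbi : Function.Injective b) (hs : Setup b hL U l d) {m s g : ℕ}
    (f : Fin g → MvPolynomial (Fin (m + 1 + s)) ℚ) (ee : Fin g → ℕ)
    (hf : ∀ j, (f j).IsHomogeneous (ee j)) (h1d : 1 ≤ d) (hd2 : ∀ j, ee j ≤ d)
    (X : Fin (m + 1 + s) → Polynomial GG) (hX : ∀ i, Lift hL U l 1 (X i))
    (x : Fin (m + 1 + s) → ℕ → ℤ) (hx : ∀ i, (X i).eval 1 = gm (fun t => (x i t : ℚ)))
    (hfA : ∀ j t, aeval (fun c => (x c t : ℚ)) (f j) = 0) (S0 : Fin (m + 1) → Fin (m + 1 + s))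
    (hgen : ∀ G : MvPolynomial (Fin (m + 1)) ℚ, (∃ e, G.IsHomogeneous e) → G ≠ 0 →
      aeval (fun i : Fin (m + 1) => gm (fun t => (x (S0 i) t : ℚ))) G ≠ 0) :
    ∃ R : Fin (m + 1) → Fin (m + 1 + s) → GG,
      (Matrix.of fun ρ i => R ρ (S0 i)).det ≠ 0 ∧
      (∀ ρ j, ∑ c, R ρ c * aeval (fun c => gm (fun t => (x c t : ℚ))) (pderiv c (f j)) = 0) ∧
      (∀ ρ c, QI b L (R ρ c)) ∧
      (∀ (H : MvPolynomial (Fin (m + 1 + s)) ℚ) (h0 : ℕ), H.IsHomogeneous h0 → h0 ≤ d →
        ∀ ρ v, Dom b L v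
          (∑ c, R ρ c * aeval (fun c => gm (fun t => (x c t : ℚ))) (pderiv c H))
          (aeval (fun c => gm (fun t => (x c t : ℚ))) H)) := by
  classical
  have hxe : (fun c => (X c).eval 1) = fun c => gm (fun t => (x c t : ℚ)) := funext hx
  obtain ⟨aa, haa⟩ : ∃ aa : Fin (m + 2) → Polynomial GG,
      aa = Fin.snoc (α := fun _ => Polynomial GG) (fun i => X (S0 i)) 0 := ⟨_, rfl⟩
  have haac : ∀ c : Fin (m + 1), aa (Fin.castSucc c) = X (S0 c) := fun c => by
    rw [haa]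
    exact Fin.snoc_castSucc (α := fun _ => Polynomial GG) _ _ _
  obtain ⟨q, δ, ψ, ρ, hρ⟩ := exists_table (hL := hL) aa (by
    simp only [haac, hx]
    exact hgen)
  obtain ⟨Rr, hRr⟩ : ∃ Rr : Option (Fin m × Fin q) → Fin (m + 1 + s) → GG,
      Rr = fun j c => (match j with
        | none => (X c).eval 1
        | some ij => (DP hL (δ ij.1) (ψ ij.2) (X c)).eval 1) := ⟨_, rfl⟩
  have hR0 : ∀ c, Rr none c = (X c).eval 1 := by
    intro c
    rw [hRr]
  have hRs : ∀ ij c, Rr (some ij) c = (DP hL (δ ij.1) (ψ ij.2) (X c)).eval 1 := by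
    intro ij c
    rw [hRr]
  have hdetS : (Matrix.of fun ρ' i => Rr (ρ ρ') (S0 i)).det ≠ 0 := by
    rw [← Matrix.det_transpose]
    have h1 : (Matrix.of fun ρ' i => Rr (ρ ρ') (S0 i)).transpose =
        Matrix.of fun c i : Fin (m + 1) => rowJ hL aa δ ψ (ρ i) (Fin.castSucc c) := by
      ext c i
      rw [Matrix.transpose_apply, Matrix.of_apply, Matrix.of_apply]
      rcases ρ i with _ | ij
      · rw [hR0]
        show _ = (aa (Fin.castSucc c)).eval 1
        rw [haac]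
      · rw [hRs]
        show _ = (DP hL (δ ij.1) (ψ ij.2) (aa (Fin.castSucc c))).eval 1
        rw [haac]
    rw [h1]
    exact hρ
  have hsum0 : ∀ (H : MvPolynomial (Fin (m + 1 + s)) ℚ) (h0 : ℕ), H.IsHomogeneous h0 →
      ∑ c, Rr none c * aeval (fun c => (X c).eval 1) (pderiv c H) =
      (h0 : GG) * (aeval X H).eval 1 := by
    intro H h0 hH
    have h1 := congrArg (aeval (fun c => (X c).eval 1)) hH.sum_X_mul_pderiv
    rw [map_sum, map_nsmul, nsmul_eq_mul, ← eval_aeval] at h1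
    rw [← h1]
    refine Finset.sum_congr rfl fun c _ => ?_
    rw [hR0, map_mul, aeval_X]
  have hsums : ∀ (H : MvPolynomial (Fin (m + 1 + s)) ℚ) (h0 : ℕ), H.IsHomogeneous h0 →
      h0 ≤ d → ∀ ij, ∑ c, Rr (some ij) c * aeval (fun c => (X c).eval 1) (pderiv c H) =
      (DP hL (δ ij.1) (ψ ij.2) (aeval X H)).eval 1 := by
    intro H h0 hH hhd ij
    rw [chain hb hs X hX H hH hhd]
    refine Finset.sum_congr rfl fun c _ => ?_
    rw [hRs, mul_comm]
  -- the equations
  have hf1 : ∀ j, aeval (fun c => (X c).eval 1) (f j) = 0 := by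
    intro j
    rw [hxe, aeval_gmn, ← gm_zero]
    congr 1
    funext t
    exact hfA j t
  have hfX : ∀ j, aeval X (f j) = 0 := by
    intro j
    refine (lift_aeval X hX (f j) (hf j)).eq_zero hcs hb hbi hs (hd2 j) ?_
    rw [eval_aeval, hf1]
  have hftan : ∀ j' j, ∑ c, Rr j' c * aeval (fun c => (X c).eval 1) (pderiv c (f j)) = 0 := by
    intro j' j
    rcases j' with _ | ij
    · rw [hsum0 _ _ (hf j), hfX, Polynomial.eval_zero, mul_zero]
    · rw [hsums _ _ (hf j) (hd2 j), hfX]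
      simp [DP]
  have hRq : ∀ j' c, QI b L (Rr j' c) := by
    intro j' c
    rcases j' with _ | ij
    · rw [hR0]
      exact (hX c).qi hb hs
    · rw [hRs]
      exact DP_qi hb hs h1d (hX c)
  refine ⟨fun ρ' c => Rr (ρ ρ') c, hdetS, fun ρ' j => ?_, fun ρ' c => hRq _ _, ?_⟩
  · rw [← hxe]
    exact hftan _ _
  · intro H h0 hH hhd ρ' v
    rw [← hxe]
    show Dom b L v (∑ c, Rr (ρ ρ') c * aeval (fun c => (X c).eval 1) (pderiv c H))
      (aeval (fun c => (X c).eval 1) H)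
    rcases ρ ρ' with _ | ij
    · rw [hsum0 _ _ hH, ← eval_aeval]
      exact Dom.smul hb hbi hL (natCast_mem _ _) (Dom.refl hb hL v _)
    · rw [hsums _ _ hH hhd, ← eval_aeval]
      exact DP_dom hnc hb hbi hs hhd (lift_aeval X hX H hH) v

end

end Pool.Agent.Y731.MI
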