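import Mathlib
import Pool.Agent.Y731.MI.Place2
import Pool.Agent.Y731.MI.Tab

/-!
# Multiplier ideals: the inequality for germs
-/

set_option autoImplicit false
set_option linter.unusedSectionVars false
set_option linter.unusedVariables false

namespace Pool.Agent.Y731.MI

open Filter Topology Pool.Agent.TH932.Germs Pool.Agent.TH551.SU Pool.Agent.TH551.ZP
open Pool.Agent.TH551.SU.CRV Pool.Agent.TH551.ZP.GT MvPolynomial Pool.Agent.TH551.HA
open Pool.Agent.TH551.HA.P1 (DP_sum rat_mem DP_const AQ AD qi_int dom_of_le)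
open Pool.Agent.TH551.HA.Ci (aeval_gmn pderiv_scale)
open Pool.Agent.Y731.GV

/-- clearing denominators -/
lemma exists_int {n : ℕ} (G : MvPolynomial (Fin n) ℚ) : ∃ (N : ℤ) (P : MvPolynomial (Fin n) ℤ),
    N ≠ 0 ∧ map (Int.castRingHom ℚ) P = C (N : ℚ) * G := by
  induction G using MvPolynomial.induction_on with
  | C a =>
    refine ⟨a.den, C a.num, by exact_mod_cast a.den_ne_zero, ?_⟩
    rw [map_C, ← C_mul]
    congr 1
    show (a.num : ℚ) = ((a.den : ℤ) : ℚ) * a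
    push_cast
    rw [mul_comm, Rat.mul_den_eq_num]
  | add p q hp hq =>
    obtain ⟨N, P, hN, h1⟩ := hp
    obtain ⟨N', P', hN', h2⟩ := hq
    refine ⟨N * N', C N' * P + C N * P', mul_ne_zero hN hN', ?_⟩
    rw [map_add, map_mul, map_mul, map_C, map_C, h1, h2]
    simp only [eq_intCast, Int.cast_mul, C_mul]
    ring
  | mul_X p i hp =>
    obtain ⟨N, P, hN, h1⟩ := hp
    refine ⟨N, P * X i, hN, ?_⟩
    rw [map_mul, map_X, h1]
    ring

section

variable {M g : ℕ}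

/-- bounds for the forms `dx_J` with bounded degrees -/
def LB (G : Fin g → MvPolynomial (Fin M) ℤ) (N : ℕ)
    (w : Valuation (MvPolynomial (Fin M) ℤ) NNReal) (d : ℕ) (J : Fin (N + 1) → Fin M)
    (r : NNReal) : Prop :=
  ∃ (T : ℕ) (q : MvPolynomial (Fin M) ℤ) (h : Fin T → MvPolynomial (Fin M) ℤ)
    (p : Fin T → Fin (N + 1) → MvPolynomial (Fin M) ℤ),
    w q ≠ 0 ∧ (∀ k, w (h k) ≤ r * w q) ∧
    (∀ k i, (∃ e ≤ d, (p k i).IsHomogeneous e) ∧ w (p k i) ≠ 0) ∧
    ∀ (z : Fin M → ℂ) (t : Fin (N + 1) → Fin M → ℂ), (∀ k, aeval z (G k) = 0) →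
      (∀ i k, dif (G k) z (t i) = 0) → aeval z q ≠ 0 → (∀ k i, aeval z (p k i) ≠ 0) →
      (Matrix.of fun i j => t i (J j)).det =
        ∑ k, aeval z (h k) / aeval z q *
          (Matrix.of fun i j => dif (p k j) z (t i) / aeval z (p k j)).det

lemma LB.mono {G : Fin g → MvPolynomial (Fin M) ℤ} {N : ℕ}
    {w : Valuation (MvPolynomial (Fin M) ℤ) NNReal} {d d' : ℕ} {J : Fin (N + 1) → Fin M}
    {r : NNReal} (h : LB G N w d J r) (hd : d ≤ d') : LB G N w d' J r := by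
  obtain ⟨T, q, h', p, h1, h2, h3, h4⟩ := h
  refine ⟨T, q, h', p, h1, h2, fun k i => ⟨?_, (h3 k i).2⟩, h4⟩
  obtain ⟨e, he, h5⟩ := (h3 k i).1
  exact ⟨e, he.trans hd, h5⟩

lemma exists_LB {G : Fin g → MvPolynomial (Fin M) ℤ} {N : ℕ}
    {w : Valuation (MvPolynomial (Fin M) ℤ) NNReal} {J : Fin (N + 1) → Fin M}
    {r : NNReal} (h : LogBound G N w J r) : ∃ d, LB G N w d J r := by
  obtain ⟨T, e, q, h', p, _, h1, h2, h3, h4⟩ := h
  choose dp hdp using fun k i => (h3 k i).1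
  refine ⟨∑ k, ∑ i, dp k i, T, q, h', p, h1, fun k => (h2 k).2, fun k i => ⟨?_, (h3 k i).2⟩, h4⟩
  refine ⟨dp k i, ?_, hdp k i⟩
  exact (Finset.single_le_sum (f := fun i => dp k i) (fun _ _ => Nat.zero_le _)
    (Finset.mem_univ i)).trans (Finset.single_le_sum (f := fun k => ∑ i, dp k i)
      (fun _ _ => Nat.zero_le _) (Finset.mem_univ k))

end

section

variable {s' : ℕ} {b : Fin s' → ℕ} {L : ℕ → ℝ}

/-- **the inequality for germs** -/
theorem miGerm (hnc : NcStmt) (hcs : CSStmt) (hb : ∀ v, (b v).Prime)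
    (hbi : Function.Injective b) (hL : Tendsto L atTop atTop) {m s g a0 u0 : ℕ}
    (G : Fin g → MvPolynomial (Fin (m + 1 + s)) ℤ) (dG : Fin g → ℕ)
    (hG : ∀ k, (G k).IsHomogeneous (dG k))
    (hsm : SNC (fun k => map (Int.castRingHom ℚ) (G k))
      (fun (_ : Fin 0) (_ : Fin 0) => (0 : MvPolynomial (Fin (m + 1 + s)) ℚ)) s)
    (S0 : Fin (m + 1) → Fin (m + 1 + s))
    (hS0 : ∀ P : MvPolynomial (Fin (m + 1)) ℤ, Vanishes G (rename S0 P) → P = 0)
    (f : Fin a0 → MvPolynomial (Fin (m + 1 + s)) ℤ) (df : Fin a0 → ℕ)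
    (hf : ∀ j, (f j).IsHomogeneous (df j)) (j0 : Fin a0) (hj0 : ¬ Vanishes G (f j0))
    (u : Fin u0 → MvPolynomial (Fin (m + 1 + s)) ℤ) (du : Fin u0 → ℕ)
    (hu : ∀ j, (u j).IsHomogeneous (du j)) (k0 : Fin u0) (hk0 : ¬ Vanishes G (u k0))
    (hmult : ∀ k, InMult G m f (u k))
    (x : Fin (m + 1 + s) → ℕ → ℤ) (hX : ∀ t k, eval (fun c => x c t) (G k) = 0)
    (hgcd : ∀ t, Finset.univ.gcd (fun c => x c t) = 1) (K0 : ℝ)
    (hxle : ∀ᶠ t in (UU : Filter ℕ), ∀ c, |(x c t : ℝ)| ≤ Real.exp (K0 * L t))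
    (hgen : ∀ (P : MvPolynomial (Fin (m + 1 + s)) ℤ) (e : ℕ), P.IsHomogeneous e →
      ¬ Vanishes G P → ∀ᶠ t in (UU : Filter ℕ), eval (fun c => x c t) P ≠ 0)
    (hlift : ∀ d, ∃ (r : ℕ) (W : Fin (r + 1) → GG) (l : Fin (r + 1) → ℕ)
      (_ : Setup b hL W l d) (X : Fin (m + 1 + s) → Polynomial GG),
        (∀ i, Lift hL W l 1 (X i)) ∧ ∀ i, (X i).eval 1 = gm (fun t => (x i t : ℚ)))
    (A : ℕ → Matrix (Fin (m + 1 + s)) (Fin (m + 1)) ℤ)
    (hAli : ∀ t, ∀ κ : Fin (m + 1) → ℚ, (∀ c, ∑ ρ, κ ρ * (A t c ρ : ℚ) = 0) → ∀ ρ, κ ρ = 0)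
    (hAt : ∀ t ρ j, ∑ c, (A t c ρ : ℚ) *
      aeval (fun c => (x c t : ℚ)) (pderiv c (map (Int.castRingHom ℚ) (G j))) = 0)
    (a : Option (Fin s') → Fin (m + 1 + s))
    (ha : ∀ v, ∀ᶠ t in (UU : Filter ℕ), ∀ c, av b v (x c t : ℚ) ≤ av b v (x (a v) t : ℚ))
    (V : Finset (Option (Fin s'))) (ε : ℝ) (hε : 0 < ε) :
    ∀ᶠ t in (UU : Filter ℕ), mnr (A t) S0 ≠ 0 ∧
      Real.log (((Finset.univ.sup fun J : Fin (m + 1) → Fin (m + 1 + s) =>
          (mnr (A t) J).natAbs : ℕ) : ℝ) /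
        ((Finset.univ.gcd fun J : Fin (m + 1) → Fin (m + 1 + s) => mnr (A t) J : ℤ) : ℝ)) ≤
      ε * L t + ((m : ℝ) + 1) * ∑ v, Real.log (av b v (x (a v) t : ℚ)) +
        ∑ v ∈ V, (Real.log (⨆ j, av b v (phi x (a v) (f j) t)) -
          Real.log (⨆ j, av b v (phi x (a v) (u j) t))) := by
  classical
  have hx0 : ∀ v, ∀ᶠ t in (UU : Filter ℕ), x (a v) t ≠ 0 := by
    intro v
    filter_upwards [ha v] with t ht h0
    have hall : ∀ c, x c t = 0 := by
      intro c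
      by_contra h2
      have h3 := av_pos hb v (q := (x c t : ℚ)) (by exact_mod_cast h2)
      have h4 := ht c
      rw [h0, Int.cast_zero, av_zero hb] at h4
      linarith
    have h5 := hgcd t
    have h6 : Finset.univ.gcd (fun c => x c t) = 0 :=
      Finset.gcd_eq_zero_iff.2 fun c _ => hall c
    rw [h6] at h5
    exact zero_ne_one h5
  have hNj : Nonempty (Fin a0) := ⟨j0⟩
  have hNu : Nonempty (Fin u0) := ⟨k0⟩
  -- the valuations
  obtain ⟨w, hw⟩ : ∃ w : Option (Fin s') → Valuation (MvPolynomial (Fin (m + 1 + s)) ℤ) NNReal,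
      w = fun v => gval hb hL v (phi x (a v)) (md_phi hb hL x (a v) v (ha v)) := ⟨_, rfl⟩
  have hwc : ∀ v P, ((w v P : NNReal) : ℝ) = lmv b v L (phi x (a v) P) := by
    intro v P
    rw [hw]
    exact gval_coe hb hL v _ _ P
  have hwp : ∀ v, IsPlace G (w v) := by
    intro v
    rw [hw]
    exact isPlace hb hbi hL G x hX (a v) v (ha v) K0 hxle (hx0 v) hgen
  have hmd : ∀ v P, Md b v L (phi x (a v) P) := fun v P => md_phi hb hL x (a v) v (ha v) P
  -- the generic coordinates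
  have hgenS : ∀ G0 : MvPolynomial (Fin (m + 1)) ℚ, (∃ e, G0.IsHomogeneous e) → G0 ≠ 0 →
      aeval (fun i : Fin (m + 1) => gm (fun t => (x (S0 i) t : ℚ))) G0 ≠ 0 := by
    rintro G0 ⟨e, he⟩ hG0 h0
    obtain ⟨N, P, hN, hP⟩ := exists_int G0
    have hPh : P.IsHomogeneous e := by
      refine MvPolynomial.IsHomogeneous.of_map (f := Int.castRingHom ℚ) Int.cast_injective ?_
      rw [hP]
      have := (isHomogeneous_C (Fin (m + 1)) (N : ℚ)).mul he
      rwa [zero_add] at this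
    have hP0 : P ≠ 0 := by
      intro h1
      rw [h1, map_zero] at hP
      rcases mul_eq_zero.1 hP.symm with h2 | h2
      · rw [C_eq_zero] at h2
        exact hN (by exact_mod_cast h2)
      · exact hG0 h2
    have h1 := hgen (rename S0 P) e hPh.rename_isHomogeneous fun hV => hP0 (hS0 P hV)
    rw [aeval_gmn, ← gm_zero, gm_eq] at h0
    obtain ⟨t, h2, h3⟩ := (h1.and h0).exists
    apply h2
    rw [eval_rename]
    have h4 : ((eval ((fun c => x c t) ∘ S0) P : ℤ) : ℚ) = 0 := by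
      rw [← aeval_int, aevalZ, hP, map_mul]
      have h5 : aeval (fun c => ((((fun c => x c t) ∘ S0) c : ℤ) : ℚ)) G0 = 0 := h3
      rw [h5, mul_zero]
    exact_mod_cast h4
  have hX00 : gm (fun t => (x (S0 0) t : ℚ)) ≠ 0 := by
    have h := hgenS (MvPolynomial.X 0) ⟨1, MvPolynomial.isHomogeneous_X _ _⟩
      (MvPolynomial.X_ne_zero _)
    rwa [aeval_X] at h
  -- the small constant
  obtain ⟨ε1, hε1⟩ : ∃ ε1 : ℝ, ε1 = ε / (5 * s' + 6) := ⟨_, rfl⟩
  have hs6 : (0 : ℝ) < 5 * s' + 6 := by positivity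
  have hε1' : 0 < ε1 := by rw [hε1]; positivity
  -- the norms of the ideals
  obtain ⟨If, hIf⟩ : ∃ If : Option (Fin s') → NNReal, If = fun v => ⨆ j, w v (f j) := ⟨_, rfl⟩
  choose j1 hj1 using fun v => exists_eq_ciSup_of_finite (f := fun j => w v (f j))
  choose k1 hk1 using fun v => Finite.exists_max fun k => w v (u k)
  have hwpos : ∀ v (P : MvPolynomial (Fin (m + 1 + s)) ℤ) e, P.IsHomogeneous e → ¬ Vanishes G P →
      0 < w v P := fun v P e hP hV =>
    pos_iff_ne_zero.2 fun h0 => hV (((hwp v).2.2.2 P e hP).1 h0)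
  have hIfpos : ∀ v, 0 < If v := by
    intro v
    rw [hIf]
    exact lt_of_lt_of_le (hwpos v (f j0) _ (hf j0) hj0)
      (le_ciSup (f := fun j => w v (f j)) (Set.finite_range _).bddAbove j0)
  have hUpos : ∀ v, 0 < w v (u (k1 v)) := fun v =>
    lt_of_lt_of_le (hwpos v (u k0) _ (hu k0) hk0) (hk1 v k0)
  -- the representations
  obtain ⟨δ, hδ⟩ : ∃ δ : NNReal, δ = ⟨Real.exp ε1, (Real.exp_pos _).le⟩ := ⟨_, rfl⟩
  have hδc : (δ : ℝ) = Real.exp ε1 := by rw [hδ]; rfl
  have hδ1 : 1 < δ := by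
    rw [← NNReal.coe_lt_coe, hδc, NNReal.coe_one]
    exact Real.one_lt_exp_iff.2 hε1'
  have hLBr : ∀ v J, LogBound G m (w v) J (If v / w v (u (k1 v)) * δ) := by
    intro v J
    obtain ⟨r, hr1, hr2⟩ := hmult (k1 v) (w v) (hwp v)
    refine hr1 J _ ?_
    have h1 : r ≤ If v / w v (u (k1 v)) := by
      rw [le_div_iff₀ (hUpos v), mul_comm, hIf]
      exact hr2
    refine lt_of_le_of_lt h1 ?_
    have h2 : 0 < If v / w v (u (k1 v)) := div_pos (hIfpos v) (hUpos v)
    exact lt_mul_of_one_lt_right h2 hδ1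
  choose D hD using fun v J => exists_LB (hLBr v J)
  obtain ⟨d, hd⟩ : ∃ d, d = 1 + (∑ k, dG k + ∑ v, ∑ J, D v J) := ⟨_, rfl⟩
  have h1d : 1 ≤ d := by omega
  have hGd : ∀ k, dG k ≤ d := fun k => by
    have := Finset.single_le_sum (f := dG) (fun _ _ => Nat.zero_le _) (Finset.mem_univ k)
    omega
  have hDd : ∀ v J, D v J ≤ d := fun v J => by
    have h1 := Finset.single_le_sum (f := fun J => D v J) (fun _ _ => Nat.zero_le _)
      (Finset.mem_univ J)
    have h2 := Finset.single_le_sum (f := fun v => ∑ J, D v J) (fun _ _ => Nat.zero_le _)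
      (Finset.mem_univ v)
    have h3 := h1.trans h2
    omega
  obtain ⟨r, W, l, hs, Xl, hXl, hXx⟩ := hlift d
  have hfA : ∀ k t, aeval (fun c => (x c t : ℚ)) (map (Int.castRingHom ℚ) (G k)) = 0 := by
    intro k t
    rw [← aevalZ, aeval_int, hX, Int.cast_zero]
  obtain ⟨R, hdet, htan, hqi, hdom⟩ := logTable hnc hcs hb hbi hs
    (fun k => map (Int.castRingHom ℚ) (G k)) dG (fun k => (hG k).map _) h1d hGd Xl hXl x hXx
    hfA S0 hgenS
  -- the bounds at the places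
  obtain ⟨ρ, hρ⟩ : ∃ ρ : Option (Fin s') → ℝ, ρ = fun v => if v ∈ V then
      ((If v / w v (u (k1 v)) : NNReal) : ℝ) * Real.exp (2 * ε1) else 1 := ⟨_, rfl⟩
  have hρpos : ∀ v, 0 < ρ v := by
    intro v
    rw [hρ]
    by_cases hv : v ∈ V
    · simp only [hv, if_true]
      exact mul_pos (NNReal.coe_pos.2 (div_pos (hIfpos v) (hUpos v))) (Real.exp_pos _)
    · simp only [hv, if_false]
      exact one_pos
  have hBd : ∀ (J0 : Fin (m + 1) → Fin (m + 1 + s)) v, ∀ᶠ t in (UU : Filter ℕ),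
      av b v (rep (Matrix.of fun ρ i => R ρ (J0 i)).det t) ≤
        Real.exp (ε1 * L t) * (ρ v ^ L t * av b v (x (a v) t : ℚ) ^ (m + 1)) := by
    intro J0 v
    by_cases hv : v ∈ V
    · obtain ⟨T, q, h', p, h1, h2, h3, h4⟩ := (hD v J0).mono (hDd v J0)
      have hρv : ρ v = ((If v / w v (u (k1 v)) : NNReal) : ℝ) * Real.exp (2 * ε1) := by
        rw [hρ]
        simp only [hv, if_true]
      rw [hρv]
      refine placeBound hb hbi hL G dG hG x hX (a v) v (ha v) (hx0 v) d R htan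
        (fun H h0 hH hh ρ => hdom H h0 hH hh ρ v) J0 q h' p (fun k i => (h3 k i).1)
        (((If v / w v (u (k1 v)) * δ : NNReal)) : ℝ) _ ?_ ?_ ?_ (fun k => ?_) (fun k i => ?_) h4
        ε1 hε1'
      · rw [NNReal.coe_mul, hδc]
        refine mul_lt_mul_of_pos_left (Real.exp_lt_exp.2 (by linarith)) ?_
        exact NNReal.coe_pos.2 (div_pos (hIfpos v) (hUpos v))
      · exact mul_nonneg (NNReal.coe_nonneg _) (Real.exp_pos _).le
      · rw [← hwc]
        exact NNReal.coe_pos.2 (pos_iff_ne_zero.2 h1)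
      · rw [← hwc, ← hwc]
        exact_mod_cast h2 k
      · rw [← hwc]
        exact NNReal.coe_pos.2 (pos_iff_ne_zero.2 (h3 k i).2)
    · have hρv : ρ v = 1 := by
        rw [hρ]
        simp only [hv, if_false]
      rw [hρv]
      exact trivBound hb hbi hL x (a v) v (ha v) (hx0 v) d h1d R
        (fun H h0 hH hh ρ => hdom H h0 hH hh ρ v) J0 ε1 hε1'
  have hcore := germCore hb hbi hL (fun k => map (Int.castRingHom ℚ) (G k)) hsm x hfA S0 hX00 R
    hdet htan hqi A hAli hAt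
    (fun v t => Real.exp (ε1 * L t) * (ρ v ^ L t * av b v (x (a v) t : ℚ) ^ (m + 1))) hBd ε1 hε1'
  -- the ideals
  have hlow : ∀ v, ∀ᶠ t in (UU : Filter ℕ),
      ((If v : ℝ) * Real.exp (-ε1)) ^ L t ≤ ⨆ j, av b v (phi x (a v) (f j) t) := by
    intro v
    have h1 : (If v : ℝ) = lmv b v L (phi x (a v) (f (j1 v))) := by
      rw [← hwc, hj1 v, hIf]
    have h2 : (If v : ℝ) * Real.exp (-ε1) < lmv b v L (phi x (a v) (f (j1 v))) := by
      rw [← h1]
      refine mul_lt_of_lt_one_right (NNReal.coe_pos.2 (hIfpos v)) ?_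
      exact Real.exp_lt_one_iff.2 (by linarith)
    filter_upwards [ev_ge_of_lt_lmv hb hL (hmd v _) (mul_nonneg (NNReal.coe_nonneg _)
      (Real.exp_pos _).le) h2] with t h3
    exact h3.trans (le_ciSup (f := fun j => av b v (phi x (a v) (f j) t))
      (Set.finite_range _).bddAbove (j1 v))
  have hupp : ∀ v, ∀ᶠ t in (UU : Filter ℕ),
      ⨆ j, av b v (phi x (a v) (u j) t) ≤ ((w v (u (k1 v)) : ℝ) * Real.exp ε1) ^ L t := by
    intro v
    have h1 : ∀ k, ∀ᶠ t in (UU : Filter ℕ), av b v (phi x (a v) (u k) t) ≤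
        ((w v (u (k1 v)) : ℝ) * Real.exp ε1) ^ L t := by
      intro k
      refine ev_le_of_lmv_lt hb hL (hmd v _) ?_
      rw [← hwc]
      refine lt_of_le_of_lt (NNReal.coe_le_coe.2 (hk1 v k)) ?_
      exact lt_mul_of_one_lt_right (NNReal.coe_pos.2 (hUpos v)) (Real.one_lt_exp_iff.2 hε1')
    filter_upwards [eventually_all.2 h1] with t h2
    exact ciSup_le h2
  have hupos : ∀ v, ∀ᶠ t in (UU : Filter ℕ), 0 < ⨆ j, av b v (phi x (a v) (u j) t) := by
    intro v
    filter_upwards [hgen (u k0) _ (hu k0) hk0, hx0 v] with t h1 h2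
    refine lt_of_lt_of_le ?_ (le_ciSup (f := fun j => av b v (phi x (a v) (u j) t))
      (Set.finite_range _).bddAbove k0)
    refine av_pos hb v ?_
    rw [phi_hom x (a v) _ _ (hu k0)]
    exact mul_ne_zero (pow_ne_zero _ (inv_ne_zero (by exact_mod_cast h2))) (by exact_mod_cast h1)
  filter_upwards [hcore, eventually_all.2 hlow, eventually_all.2 hupp, eventually_all.2 hupos,
    eventually_all.2 hx0, ev_pos hL] with t h1 h2 h3 h4 h5 h6
  refine ⟨h1.1, ?_⟩
  obtain ⟨rt, hrt⟩ : ∃ rt : ℝ, rt = ((Finset.univ.sup fun J : Fin (m + 1) → Fin (m + 1 + s) =>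
          (mnr (A t) J).natAbs : ℕ) : ℝ) /
        ((Finset.univ.gcd fun J : Fin (m + 1) → Fin (m + 1 + s) => mnr (A t) J : ℤ) : ℝ) :=
    ⟨_, rfl⟩
  have h1' := h1.2
  rw [← hrt] at h1' ⊢
  have hxpos : ∀ v, 0 < av b v (x (a v) t : ℚ) := fun v =>
    av_pos hb v (by exact_mod_cast h5 v)
  have hterm : ∀ v, 0 < Real.exp (ε1 * L t) * (ρ v ^ L t * av b v (x (a v) t : ℚ) ^ (m + 1)) :=
    fun v => mul_pos (Real.exp_pos _) (mul_pos (Real.rpow_pos_of_pos (hρpos v) _)
      (pow_pos (hxpos v) _))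
  have hBl : Real.log (Real.exp (ε1 * L t) * ∏ v, (Real.exp (ε1 * L t) *
      (ρ v ^ L t * av b v (x (a v) t : ℚ) ^ (m + 1)))) = ε1 * L t + ∑ v, (ε1 * L t +
        (L t * Real.log (ρ v) + ((m : ℝ) + 1) * Real.log (av b v (x (a v) t : ℚ)))) := by
    rw [Real.log_mul (Real.exp_pos _).ne' (Finset.prod_pos fun v _ => hterm v).ne', Real.log_exp,
      Real.log_prod fun v _ => (hterm v).ne']
    congr 1
    refine Finset.sum_congr rfl fun v _ => ?_
    rw [Real.log_mul (Real.exp_pos _).ne' (mul_pos (Real.rpow_pos_of_pos (hρpos v) _)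
      (pow_pos (hxpos v) _)).ne', Real.log_exp, Real.log_mul
      (Real.rpow_pos_of_pos (hρpos v) _).ne' (pow_pos (hxpos v) _).ne',
      Real.log_rpow (hρpos v), Real.log_pow]
    push_cast
    ring
  have hρle : ∀ v, L t * Real.log (ρ v) ≤ if v ∈ V then
      (Real.log (⨆ j, av b v (phi x (a v) (f j) t)) -
        Real.log (⨆ j, av b v (phi x (a v) (u j) t))) + 4 * (ε1 * L t) else 0 := by
    intro v
    by_cases hv : v ∈ V
    · rw [if_pos hv]
      have hρv : ρ v = ((If v / w v (u (k1 v)) : NNReal) : ℝ) * Real.exp (2 * ε1) := by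
        rw [hρ]
        simp only [hv, if_true]
      have hI : (0 : ℝ) < If v := NNReal.coe_pos.2 (hIfpos v)
      have hU : (0 : ℝ) < w v (u (k1 v)) := NNReal.coe_pos.2 (hUpos v)
      rw [hρv, NNReal.coe_div, Real.log_mul (div_pos hI hU).ne' (Real.exp_pos _).ne',
        Real.log_exp, Real.log_div hI.ne' hU.ne']
      have e1 := Real.log_le_log (Real.rpow_pos_of_pos (mul_pos hI (Real.exp_pos _)) _) (h2 v)
      rw [Real.log_rpow (mul_pos hI (Real.exp_pos _)), Real.log_mul hI.ne' (Real.exp_pos _).ne',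
        Real.log_exp] at e1
      have e2 := Real.log_le_log (h4 v) (h3 v)
      rw [Real.log_rpow (mul_pos hU (Real.exp_pos _)), Real.log_mul hU.ne' (Real.exp_pos _).ne',
        Real.log_exp] at e2
      nlinarith
    · rw [if_neg hv]
      have hρv : ρ v = 1 := by
        rw [hρ]
        simp only [hv, if_false]
      rw [hρv, Real.log_one, mul_zero]
  have hfin : Real.log (Real.exp (ε1 * L t) * ∏ v, (Real.exp (ε1 * L t) *
      (ρ v ^ L t * av b v (x (a v) t : ℚ) ^ (m + 1)))) ≤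
      ε * L t + ((m : ℝ) + 1) * ∑ v, Real.log (av b v (x (a v) t : ℚ)) +
        ∑ v ∈ V, (Real.log (⨆ j, av b v (phi x (a v) (f j) t)) -
          Real.log (⨆ j, av b v (phi x (a v) (u j) t))) := by
    have e6 : ∑ v : Option (Fin s'), ((m : ℝ) + 1) * Real.log (av b v (x (a v) t : ℚ)) =
        ((m : ℝ) + 1) * ∑ v, Real.log (av b v (x (a v) t : ℚ)) := (Finset.mul_sum _ _ _).symm
    rw [hBl, Finset.sum_add_distrib, Finset.sum_add_distrib, e6, Finset.sum_const,
      Finset.card_univ, Fintype.card_option, Fintype.card_fin, nsmul_eq_mul]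
    have e1 := Finset.sum_le_sum fun v (_ : v ∈ (Finset.univ : Finset (Option (Fin s')))) => hρle v
    rw [← Finset.sum_filter, Finset.filter_mem_eq_inter, Finset.univ_inter,
      Finset.sum_add_distrib, Finset.sum_const, nsmul_eq_mul] at e1
    have e2 : (V.card : ℝ) ≤ s' + 1 := by
      have := Finset.card_le_univ V
      rw [Fintype.card_option, Fintype.card_fin] at this
      exact_mod_cast this
    have e3 : 0 ≤ ε1 * L t := mul_nonneg hε1'.le h6.le
    have e4 : (V.card : ℝ) * (4 * (ε1 * L t)) ≤ (s' + 1) * (4 * (ε1 * L t)) :=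
      mul_le_mul_of_nonneg_right e2 (by linarith)
    have e5 : ε * L t = (5 * s' + 6) * (ε1 * L t) := by
      rw [hε1]
      field_simp
    rw [e5]
    push_cast
    linarith
  by_cases hrt0 : 0 < rt
  · exact (Real.log_le_log hrt0 h1').trans hfin
  · -- the ratio is positive as some minor does not vanish
    exfalso
    apply hrt0
    rw [hrt]
    have hg0 : (Finset.univ.gcd fun J : Fin (m + 1) → Fin (m + 1 + s) => mnr (A t) J) ≠ 0 := by
      intro h0
      exact h1.1 ((Finset.gcd_eq_zero_iff.1 h0) S0 (Finset.mem_univ _))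
    have hg1 : 0 ≤ (Finset.univ.gcd fun J : Fin (m + 1) → Fin (m + 1 + s) => mnr (A t) J) :=
      Int.nonneg_of_normalize_eq_self (Finset.normalize_gcd (s := (Finset.univ : Finset _)))
    refine div_pos ?_ (by exact_mod_cast lt_of_le_of_ne hg1 (Ne.symm hg0))
    have h7 : (mnr (A t) S0).natAbs ≤
          Finset.univ.sup fun J : Fin (m + 1) → Fin (m + 1 + s) => (mnr (A t) J).natAbs :=
        Finset.le_sup (f := fun J => (mnr (A t) J).natAbs) (Finset.mem_univ _)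
    exact_mod_cast lt_of_lt_of_le (Int.natAbs_pos.2 h1.1) h7

end

end Pool.Agent.Y731.MI
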