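import Mathlib
import Pool.Agent.Y731.GV.Main

/-!
# Multiplier ideals: lifts of sparse numbers
-/

set_option autoImplicit false
set_option linter.unusedSectionVars false
set_option linter.unusedVariables false

namespace Pool.Agent.Y731.MI

open Filter Topology Pool.Agent.TH932.Germs Pool.Agent.TH551.SU Pool.Agent.TH551.ZP
open Pool.Agent.TH551.SU.CRV Pool.Agent.TH551.SU.Ht MvPolynomial Pool.Agent.TH551.HA
open Pool.Agent.TH551.HA.P1 (IsSparse)

/-- lifts of sparse numbers -/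
theorem exists_lifts (hhb : HbStmt) (hfw : FwStmt) {s' : ℕ} (b : Fin s' → ℕ)
    (hb : ∀ v, (b v).Prime) (hbi : Function.Injective b) (k : ℕ) (Γ : Subgroup ℚˣ)
    (hΓb : ∀ g ∈ Γ, IsSU b ((g : ℚˣ) : ℚ)) (L : ℕ → ℝ) (hL : Tendsto L atTop atTop)
    (hL0 : ∀ t, 0 ≤ L t) (M : ℕ → ℝ)
    (hneg : ∀ z : ℕ → ℤ, (∀ t, |(z t : ℝ)| ≤ M t) → gm (fun t => (z t : ℚ)) ∈ KK L hL) {n : ℕ}
    (Z : Fin n → ℕ → ℤ) (hZs : ∀ j t, IsSparse Γ k (M t) (Z j t)) (Bq : ℝ) (hBq0 : 0 ≤ Bq)
    (hZle : ∀ j, ∀ᶠ t in (UU : Filter ℕ), |(Z j t : ℝ)| ≤ Real.exp (Bq * L t)) (d : ℕ) :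
    ∃ (r : ℕ) (W : Fin (r + 1) → GG) (l : Fin (r + 1) → ℕ) (_ : Setup b hL W l d)
      (X : Fin n → Polynomial GG), (∀ i, Lift hL W l 1 (X i)) ∧
        ∀ i, (X i).eval 1 = gm (fun t => (Z i t : ℚ)) := by
  classical
  choose uu aa haa hZeq using hZs
  -- the germs
  have hrepz : ∀ z : ℕ → ℤ, ∀ᶠ t in (UU : Filter ℕ), rep (gm (fun t => (z t : ℚ))) t = z t :=
    fun z => rep_gm _
  have havle : ∀ (z : ℕ → ℤ), (∀ᶠ t in (UU : Filter ℕ), |(z t : ℝ)| ≤ Real.exp (Bq * L t)) →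
      ∀ᶠ t in (UU : Filter ℕ), ∀ v, av b v (z t : ℚ) ≤ Real.exp (Bq * L t) := by
    intro z hz
    filter_upwards [hz] with t ht v
    cases v with
    | none =>
      simp only [av]
      push_cast
      exact ht
    | some v =>
      exact (av_int_le_one hb v _).trans (Real.one_le_exp (mul_nonneg hBq0 (hL0 t)))
  have hHB : ∀ i, ∃ (m' : ℕ) (u' : Fin m' → GG) (c' : Fin m' → KK L hL), (∀ j, GSU b (u' j)) ∧
        (∀ j, Mod b L (u' j)) ∧ ∑ j, (c' j : GG) * u' j = gm (fun t => (Z i t : ℚ)) := by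
    intro i
    set V : Fin k → GG := fun j => gm (fun t => ((uu i t j : ℚˣ) : ℚ)) with hV
    have hVS : ∀ j, GSU b (V j) := fun j => ⟨_, rfl, fun t => hΓb _ (uu i t j).2⟩
    have hgerm : ∑ j, gm (fun t => (aa i t j : ℚ)) * V j = gm (fun t => (Z i t : ℚ)) := by
      have h1 : ∀ j, gm (fun t => (aa i t j : ℚ)) * V j =
          gm (fun t => ((uu i t j : ℚˣ) : ℚ) * aa i t j) := by
        intro j
        rw [hV]
        simp only
        rw [gm_mul]
        congr 1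
        funext t
        ring
      simp only [h1]
      rw [gm_sum']
      congr 1
      funext t
      rw [hZeq i t]
    have h1 := hhb s' b hb hbi L hL k V hVS
      (fun j => ⟨gm (fun t => (aa i t j : ℚ)), hneg _ fun t => haa i t j⟩) Bq (by
        have h2 : ∑ j, ((⟨gm (fun t => (aa i t j : ℚ)), hneg _ fun t => haa i t j⟩ :
            KK L hL) : GG) * V j = gm (fun t => (Z i t : ℚ)) := hgerm
        rw [h2]
        filter_upwards [hrepz (fun t => Z i t), havle _ (hZle i)] with t ht h3 v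
        rw [ht]
        exact h3 v)
    obtain ⟨m', u', c', h3, h4, h5⟩ := h1
    exact ⟨m', u', c', h3, h4, h5.trans hgerm⟩
  choose m' u' c' hu' hu'' hs' using hHB
  -- the combined family
  let T2 : Type := Σ i : Fin n, Fin (m' i)
  let eqv : T2 ≃ Fin (Fintype.card T2) := Fintype.equivFin T2
  let fT : T2 → GG := fun q => u' q.1 q.2
  set W : Fin (Fintype.card T2 + 1) → GG := Fin.cons 1 (fun j => fT (eqv.symm j)) with hW
  have hWs : ∀ q : T2, W (eqv q).succ = fT q := by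
    intro q
    rw [hW, Fin.cons_succ, Equiv.symm_apply_apply]
  have hWall : ∀ (P : GG → Prop), P 1 → (∀ q, P (fT q)) → ∀ j, P (W j) := by
    intro P h0 h1 j
    rw [hW]
    refine Fin.cases ?_ (fun j => ?_) j
    · simpa using h0
    · rw [Fin.cons_succ]
      exact h1 _
  have hWg : ∀ j, GSU b (W j) := hWall _ GSU.one fun q => hu' _ _
  have hWm : ∀ j, Mod b L (W j) := hWall _ (Mod.one hb hL) fun q => hu'' _ _
  obtain ⟨l, hl⟩ := hfw L hL (Fintype.card T2) W (fun j => GSU.ne_zero hb (hWg j)) d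
  have hs : Setup b hL W l d := ⟨hWg, hWm, hl⟩
  choose X hX hX1 using fun i => exists_lift (hL := hL) W l
    (fun j : Fin (m' i) => (eqv ⟨i, j⟩).succ) (c' i)
  refine ⟨_, W, l, hs, X, hX, fun i => ?_⟩
  rw [hX1, ← hs' i]
  refine Finset.sum_congr rfl fun j _ => ?_
  rw [hWs]

end Pool.Agent.Y731.MI
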