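import Mathlib
import Pool.Agent.Y731.GV.Fin
import Pool.Agent.Y731.MI.Germ
import Pool.Agent.Y731.MI.Lifts

/-!
# Multiplier ideals: the inequality for sparse points on all smooth projective varieties
-/

set_option autoImplicit false
set_option linter.unusedSectionVars false
set_option linter.unusedVariables false

namespace Pool.Agent.Y731.MI

open Filter Topology Pool.Agent.TH932.Germs Pool.Agent.TH551.SU Pool.Agent.TH551.ZP
open Pool.Agent.TH551.SU.CRV Pool.Agent.TH551.SU.Ht MvPolynomial Pool.Agent.TH551.HA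
open Pool.Agent.TH551.HA.P1 (IsSparse)
open Pool.Agent.Y731.GV

section

variable {n a : ℕ}

/-- the local height at infinity -/
noncomputable def lamInf (f : Fin a → MvPolynomial (Fin n) ℤ) (d : Fin a → ℕ) (x : Fin n → ℤ) :
    ℝ := -Real.log (⨆ j, |((eval x (f j) : ℤ) : ℝ)| / (htv x : ℝ) ^ d j)

/-- the local height at a prime -/
noncomputable def lamP (f : Fin a → MvPolynomial (Fin n) ℤ) (p : ℕ) (x : Fin n → ℤ) : ℝ :=
  -Real.log (⨆ j, ((padicNorm p ((eval x (f j) : ℤ) : ℚ) : ℚ) : ℝ))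

/-- the proximity function -/
noncomputable def prox (f : Fin a → MvPolynomial (Fin n) ℤ) (d : Fin a → ℕ) (S : Finset ℕ)
    (x : Fin n → ℤ) : ℝ := lamInf f d x + ∑ p ∈ S, lamP f p x

lemma padic_le_one (p : ℕ) (hp : p.Prime) (z : ℤ) : ((padicNorm p (z : ℚ) : ℚ) : ℝ) ≤ 1 := by
  have := Fact.mk hp
  exact_mod_cast padicNorm.of_int z

lemma padic_nonneg (p : ℕ) (hp : p.Prime) (z : ℤ) : 0 ≤ ((padicNorm p (z : ℚ) : ℚ) : ℝ) := by
  have := Fact.mk hp
  exact_mod_cast padicNorm.nonneg (z : ℚ)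

lemma padic_pos (p : ℕ) (hp : p.Prime) (z : ℤ) (hz : z ≠ 0) :
    0 < ((padicNorm p (z : ℚ) : ℚ) : ℝ) := by
  refine lt_of_le_of_ne (padic_nonneg p hp z) (Ne.symm ?_)
  have := Fact.mk hp
  have h1 : padicNorm p (z : ℚ) ≠ 0 := padicNorm.nonzero (by exact_mod_cast hz)
  exact_mod_cast h1

/-- the places of `S` of a nonzero integer -/
lemma sum_S_nonneg (S : Finset ℕ) (hS : ∀ p ∈ S, p.Prime) (z : ℤ) (hz : z ≠ 0) :
    0 ≤ Real.log |(z : ℝ)| + ∑ p ∈ S, Real.log ((padicNorm p (z : ℚ) : ℚ) : ℝ) := by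
  classical
  set b : Fin S.card → ℕ := fun v => (S.equivFin.symm v : ℕ) with hb
  have hbp : ∀ v, (b v).Prime := fun v => hS _ (S.equivFin.symm v).2
  have hbi : Function.Injective b := fun v w h => S.equivFin.symm.injective (Subtype.ext h)
  have h1 := (sum_log_av hbp hbi z hz).1
  rw [Fintype.sum_option] at h1
  have h2 : av b none (z : ℚ) = |(z : ℝ)| := by
    simp only [av]; push_cast; rfl
  rw [h2] at h1
  have h3 : ∑ v : Fin S.card, Real.log (av b (some v) (z : ℚ)) =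
      ∑ p ∈ S, Real.log ((padicNorm p (z : ℚ) : ℚ) : ℝ) := by
    have h4 : ∑ v : Fin S.card, Real.log (av b (some v) (z : ℚ)) =
        ∑ p : S, Real.log ((padicNorm (p : ℕ) (z : ℚ) : ℚ) : ℝ) := by
      refine Fintype.sum_equiv S.equivFin.symm _ _ fun v => ?_
      rfl
    rw [h4, Finset.sum_coe_sort S (fun p => Real.log ((padicNorm p (z : ℚ) : ℚ) : ℝ))]
  rw [h3] at h1
  exact h1

lemma prox_le (f : Fin a → MvPolynomial (Fin n) ℤ) (d : Fin a → ℕ) (S : Finset ℕ)
    (hS : ∀ p ∈ S, p.Prime) (x : Fin n → ℤ) (hx : 0 < (htv x : ℝ)) (j : Fin a)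
    (hj : eval x (f j) ≠ 0) : prox f d S x ≤ d j * Real.log (htv x) := by
  have h0 : (0 : ℝ) < |((eval x (f j) : ℤ) : ℝ)| := abs_pos.2 (by exact_mod_cast hj)
  have h1 : lamInf f d x ≤ d j * Real.log (htv x) - Real.log |((eval x (f j) : ℤ) : ℝ)| := by
    unfold lamInf
    have h2 : |((eval x (f j) : ℤ) : ℝ)| / (htv x : ℝ) ^ d j ≤
        ⨆ j, |((eval x (f j) : ℤ) : ℝ)| / (htv x : ℝ) ^ d j :=
      le_ciSup (f := fun j => |((eval x (f j) : ℤ) : ℝ)| / (htv x : ℝ) ^ d j)
        (Set.finite_range _).bddAbove j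
    have h3 := Real.log_le_log (div_pos h0 (pow_pos hx _)) h2
    rw [Real.log_div h0.ne' (pow_pos hx _).ne', Real.log_pow] at h3
    linarith
  have h2 : ∑ p ∈ S, lamP f p x ≤
      -∑ p ∈ S, Real.log ((padicNorm p ((eval x (f j) : ℤ) : ℚ) : ℚ) : ℝ) := by
    rw [← Finset.sum_neg_distrib]
    refine Finset.sum_le_sum fun p hp => ?_
    unfold lamP
    refine neg_le_neg (Real.log_le_log (padic_pos p (hS p hp) _ hj) ?_)
    exact le_ciSup (f := fun j => ((padicNorm p ((eval x (f j) : ℤ) : ℚ) : ℚ) : ℝ))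
      (Set.finite_range _).bddAbove j
  have h3 := sum_S_nonneg S hS _ hj
  unfold prox
  linarith

lemma le_prox (f : Fin a → MvPolynomial (Fin n) ℤ) (d : Fin a → ℕ)
    (hf : ∀ j, (f j).IsHomogeneous (d j)) : ∃ c : ℝ, 0 ≤ c ∧ ∀ (S : Finset ℕ),
    (∀ p ∈ S, p.Prime) → ∀ x : Fin n → ℤ, 0 < (htv x : ℝ) → -c ≤ prox f d S x := by
  choose c hc1 hc using fun j => eval_le (f j) (d j) (hf j)
  obtain ⟨c', hc'⟩ : ∃ c' : ℝ, c' = 1 + ∑ j, c j := ⟨_, rfl⟩
  have hcj : ∀ j, c j ≤ c' := fun j => by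
    have := Finset.single_le_sum (f := c) (fun i _ => by linarith [hc1 i]) (Finset.mem_univ j)
    rw [hc']; linarith
  have hc'1 : 1 ≤ c' := by
    have : 0 ≤ ∑ j, c j := Finset.sum_nonneg fun i _ => by linarith [hc1 i]
    rw [hc']; linarith
  refine ⟨Real.log c', Real.log_nonneg hc'1, fun S hS x hx => ?_⟩
  have h1 : -Real.log c' ≤ lamInf f d x := by
    unfold lamInf
    refine neg_le_neg ?_
    have h2 : ⨆ j, |((eval x (f j) : ℤ) : ℝ)| / (htv x : ℝ) ^ d j ≤ c' := by
      rcases isEmpty_or_nonempty (Fin a) with h3 | h3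
      · rw [Real.iSup_of_isEmpty]; linarith
      · refine ciSup_le fun j => ?_
        rw [div_le_iff₀ (pow_pos hx _)]
        refine (hc j x (htv x) hx.le fun i => ?_).trans
          (mul_le_mul_of_nonneg_right (hcj j) (pow_pos hx _).le)
        have h4 : (x i).natAbs ≤ htv x :=
          Finset.le_sup (f := fun i => (x i).natAbs) (Finset.mem_univ i)
        have h5 : ((x i).natAbs : ℝ) ≤ (htv x : ℝ) := by exact_mod_cast h4
        rwa [Nat.cast_natAbs, Int.cast_abs] at h5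
    have h3 : 0 ≤ ⨆ j, |((eval x (f j) : ℤ) : ℝ)| / (htv x : ℝ) ^ d j :=
      Real.iSup_nonneg fun j => by positivity
    rcases h3.eq_or_lt with h4 | h4
    · rw [← h4, Real.log_zero]
      exact Real.log_nonneg hc'1
    · exact Real.log_le_log h4 h2
  have h2 : 0 ≤ ∑ p ∈ S, lamP f p x := by
    refine Finset.sum_nonneg fun p hp => ?_
    unfold lamP
    rw [neg_nonneg]
    refine Real.log_nonpos (Real.iSup_nonneg fun j => padic_nonneg p (hS p hp) _) ?_
    rcases isEmpty_or_nonempty (Fin a) with h3 | h3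
    · rw [Real.iSup_of_isEmpty]; exact zero_le_one
    · exact ciSup_le fun j => padic_le_one p (hS p hp) _
  unfold prox
  linarith

/-- the proximity function in terms of the normalised values -/
lemma prox_eq {s' : ℕ} {b : Fin s' → ℕ} (hb : ∀ v, (b v).Prime) (hbi : Function.Injective b)
    (f : Fin a → MvPolynomial (Fin n) ℤ) (d : Fin a → ℕ)
    (hf : ∀ j, (f j).IsHomogeneous (d j)) (S : Finset ℕ)
    (hSb : ∀ p ∈ S, ∃ v, b v = p) (x : Fin n → ℕ → ℤ) (t : ℕ)
    (i : Option (Fin s') → Fin n)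
    (h0 : |(x (i none) t : ℝ)| = (htv fun c => x c t : ℝ))
    (h1 : ∀ v, av b (some v) (x (i (some v)) t : ℚ) = 1) :
    ∑ v ∈ insert none ((Finset.univ.filter fun v => b v ∈ S).image some),
      Real.log (⨆ j, av b v (phi x (i v) (f j) t)) = -prox f d S (fun c => x c t) := by
  classical
  rw [Finset.sum_insert (by simp), Finset.sum_image (fun v _ w _ h => Option.some_injective _ h)]
  unfold prox lamInf
  rw [neg_add, neg_neg, ← Finset.sum_neg_distrib]
  congr 1
  · congr 1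
    refine iSup_congr fun j => ?_
    rw [phi_hom x (i none) _ _ (hf j), av_mul hb, av_pow hb, av_inv hb, ← h0]
    have e1 : av b none (x (i none) t : ℚ) = |(x (i none) t : ℝ)| := by
      simp only [av]; push_cast; rfl
    have e2 : av b none ((eval (fun c => x c t) (f j) : ℤ) : ℚ) =
        |((eval (fun c => x c t) (f j) : ℤ) : ℝ)| := by
      simp only [av]; push_cast; rfl
    rw [e1, e2, inv_pow, div_eq_inv_mul]
  · have e1 : ∀ v, Real.log (⨆ j, av b (some v) (phi x (i (some v)) (f j) t)) =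
        -lamP f (b v) (fun c => x c t) := by
      intro v
      unfold lamP
      rw [neg_neg]
      congr 1
      refine iSup_congr fun j => ?_
      rw [phi_hom x (i (some v)) _ _ (hf j), av_mul hb, av_pow hb, av_inv hb, h1, inv_one,
        one_pow, one_mul]
      rfl
    rw [Finset.sum_congr rfl fun v _ => e1 v]
    have e2 : S = (Finset.univ.filter fun v => b v ∈ S).image b := by
      ext p
      rw [Finset.mem_image]
      constructor
      · intro hp
        obtain ⟨v, rfl⟩ := hSb p hp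
        exact ⟨v, Finset.mem_filter.2 ⟨Finset.mem_univ _, hp⟩, rfl⟩
      · rintro ⟨v, hv, rfl⟩
        exact (Finset.mem_filter.1 hv).2
    conv_rhs => rw [e2]
    rw [Finset.sum_image fun v _ w _ h => hbi h]

end

instance countable_mvPolynomialZ (n : ℕ) : Countable (MvPolynomial (Fin n) ℤ) := by
  classical
  have h : Function.Surjective (fun S : Finset ((Fin n →₀ ℕ) × ℤ) =>
      ∑ x ∈ S, MvPolynomial.monomial x.1 x.2) := by
    intro p
    refine ⟨p.support.image (fun α => (α, MvPolynomial.coeff α p)), ?_⟩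
    show ∑ x ∈ p.support.image (fun α => (α, MvPolynomial.coeff α p)),
      MvPolynomial.monomial x.1 x.2 = p
    rw [Finset.sum_image (fun α _ β _ h => congrArg Prod.fst h)]
    exact p.support_sum_monomial_coeff
  exact h.countable

/-- **Vojta's inequality with multiplier ideals for sparse points** -/
theorem miMain (m s g a0 u0 k : ℕ) (G : Fin g → MvPolynomial (Fin (m + 1 + s)) ℤ)
    (dG : Fin g → ℕ) (hG : ∀ k, (G k).IsHomogeneous (dG k))
    (hirr : ∀ P Q : MvPolynomial (Fin (m + 1 + s)) ℤ, Vanishes G (P * Q) →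
      Vanishes G P ∨ Vanishes G Q)
    (hsm : ∀ z : Fin (m + 1 + s) → ℂ, z ≠ 0 → (∀ k, aeval z (G k) = 0) →
      ∃ K : Fin s → Fin g, LinearIndependent ℂ
        (fun (i : Fin s) (y : Fin (m + 1 + s)) => aeval z (pderiv y (G (K i)))))
    (S0 : Fin (m + 1) → Fin (m + 1 + s))
    (hS0 : ∀ P : MvPolynomial (Fin (m + 1)) ℤ, Vanishes G (rename S0 P) → P = 0)
    (f : Fin a0 → MvPolynomial (Fin (m + 1 + s)) ℤ) (df : Fin a0 → ℕ)
    (hf : ∀ j, (f j).IsHomogeneous (df j)) (j0 : Fin a0) (hj0 : ¬ Vanishes G (f j0))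
    (u : Fin u0 → MvPolynomial (Fin (m + 1 + s)) ℤ) (du : Fin u0 → ℕ)
    (hu : ∀ j, (u j).IsHomogeneous (du j)) (k0 : Fin u0) (hk0 : ¬ Vanishes G (u k0))
    (hmult : ∀ k, InMult G m f (u k))
    (Γ : Subgroup ℚˣ) (hΓ : Γ.FG) (S : Finset ℕ) (hS : ∀ p ∈ S, p.Prime) (ε : ℝ) (hε : 0 < ε) :
    ∃ (Φ : MvPolynomial (Fin (m + 1 + s)) ℤ) (C : ℝ), (∃ e, Φ.IsHomogeneous e) ∧
      ¬ Vanishes G Φ ∧ ∀ M : ℝ, 1 ≤ M → ∀ x : Fin (m + 1 + s) → ℤ, Finset.univ.gcd x = 1 →
        (∀ k, eval x (G k) = 0) → (∀ c, IsSparse Γ k M (x c)) → eval x Φ ≠ 0 →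
        ∀ A : Matrix (Fin (m + 1 + s)) (Fin (m + 1)) ℤ,
        (∀ κ : Fin (m + 1) → ℚ, (∀ c, ∑ ρ, κ ρ * (A c ρ : ℚ) = 0) → ∀ ρ, κ ρ = 0) →
        (∀ ρ j, ∑ c, A c ρ * eval x (pderiv c (G j)) = 0) →
        Real.log (ratio A) - ((m : ℝ) + 1) * Real.log (htv x) + prox f df S x - prox u du S x ≤
          ε * Real.log (htv x) + C * (1 + Real.log M) := by
  classical
  obtain ⟨s', b, hb, hbi, hΓb, hSb⟩ := exists_baseS Γ hΓ S
  obtain ⟨cf, hcf0, hcf⟩ := le_prox f df hf
  obtain ⟨cu, hcu0, hcu⟩ := le_prox u du hu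
  by_contra hcon
  push Not at hcon
  have hne : Nonempty (Fin (m + 1 + s)) := ⟨⟨0, by omega⟩⟩
  -- an enumeration of the forms
  let T : Type := {P : MvPolynomial (Fin (m + 1 + s)) ℤ // (∃ e, P.IsHomogeneous e) ∧
    ¬ Vanishes G P}
  have hV1 : ¬ Vanishes G (1 : MvPolynomial (Fin (m + 1 + s)) ℤ) := by
    intro h1
    have h2 := hS0 1 (by rwa [map_one])
    exact one_ne_zero h2
  have hT : Nonempty T := ⟨⟨1, ⟨0, MvPolynomial.isHomogeneous_one _ _⟩, hV1⟩⟩
  obtain ⟨gg, hg⟩ := exists_surjective_nat T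
  set GG' : ℕ → MvPolynomial (Fin (m + 1 + s)) ℤ := fun t =>
    (f j0 * u k0) * ∏ i ∈ Finset.range (t + 1), (gg i).1 with hGG'
  have hVm : ∀ P Q : MvPolynomial (Fin (m + 1 + s)) ℤ, ¬ Vanishes G P → ¬ Vanishes G Q →
      ¬ Vanishes G (P * Q) := fun P Q hP hQ h => (hirr P Q h).elim hP hQ
  have hGh : ∀ t, ∃ e, (GG' t).IsHomogeneous e := by
    intro t
    choose e' he' using fun i => (gg i).2.1
    exact ⟨_, ((hf j0).mul (hu k0)).mul (MvPolynomial.IsHomogeneous.prod _ _ _ fun i _ => he' i)⟩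
  have hG0 : ∀ t, ¬ Vanishes G (GG' t) := by
    intro t
    refine hVm _ _ (hVm _ _ hj0 hk0) ?_
    exact Finset.prod_induction _ (fun P => ¬ Vanishes G P) hVm hV1 fun i _ => (gg i).2.2
  choose M hM x hgcd hX hxs hGz A hAli hAt hlt using
    fun t : ℕ => hcon (GG' t) ((t : ℝ) + cu) (hGh t) (hG0 t)
  have hz : ∀ t, eval (x t) (f j0) ≠ 0 ∧ eval (x t) (u k0) ≠ 0 ∧
      ∀ i ≤ t, eval (x t) (gg i).1 ≠ 0 := by
    intro t
    have h1 := hGz t
    simp only [hGG', map_mul, map_prod] at h1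
    refine ⟨left_ne_zero_of_mul (left_ne_zero_of_mul h1),
      right_ne_zero_of_mul (left_ne_zero_of_mul h1), fun i hi => ?_⟩
    exact Finset.prod_ne_zero_iff.1 (right_ne_zero_of_mul h1) i (Finset.mem_range.2 (by omega))
  -- the height
  have hle : ∀ t c, |(x t c : ℝ)| ≤ (htv (x t) : ℝ) := by
    intro t c
    have h4 : (x t c).natAbs ≤ htv (x t) :=
      Finset.le_sup (f := fun i => (x t i).natAbs) (Finset.mem_univ c)
    have h5 : ((x t c).natAbs : ℝ) ≤ (htv (x t) : ℝ) := by exact_mod_cast h4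
    rwa [Nat.cast_natAbs, Int.cast_abs] at h5
  have hH1 : ∀ t, (1 : ℝ) ≤ htv (x t) := by
    intro t
    obtain ⟨c, hc⟩ : ∃ c, x t c ≠ 0 := by
      by_contra hno
      push Not at hno
      have h6 : Finset.univ.gcd (x t) = 0 := Finset.gcd_eq_zero_iff.2 fun c _ => hno c
      have h5 := hgcd t
      rw [h6] at h5
      exact zero_ne_one h5
    have h1 : (1 : ℝ) ≤ |(x t c : ℝ)| := by exact_mod_cast Int.one_le_abs hc
    exact h1.trans (hle t c)
  have hHp : ∀ t, (0 : ℝ) < htv (x t) := fun t => by linarith [hH1 t]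
  have hlH : ∀ t, 0 ≤ Real.log (htv (x t)) := fun t => Real.log_nonneg (hH1 t)
  -- the ratio
  have hratio : ∀ t, 0 ≤ Real.log (ratio (A t)) := by
    intro t
    unfold ratio
    obtain ⟨gd, hgd⟩ : ∃ gd : ℤ, gd =
      Finset.univ.gcd fun J : Fin (m + 1) → Fin (m + 1 + s) => mnr (A t) J := ⟨_, rfl⟩
    rw [← hgd]
    by_cases h0 : gd = 0
    · rw [h0]; simp
    · have hgd0 : 0 ≤ gd := by
        rw [hgd]
        exact Int.nonneg_of_normalize_eq_self (Finset.normalize_gcd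
          (s := (Finset.univ : Finset (Fin (m + 1) → Fin (m + 1 + s)))))
      have hgd1 : 0 < gd := lt_of_le_of_ne hgd0 (Ne.symm h0)
      obtain ⟨J0, hJ0'⟩ : ∃ J0, mnr (A t) J0 ≠ 0 := by
        by_contra hno
        push Not at hno
        apply h0
        rw [hgd]
        exact Finset.gcd_eq_zero_iff.2 fun J _ => hno J
      have h1 : gd ∣ mnr (A t) J0 := by
        rw [hgd]; exact Finset.gcd_dvd (Finset.mem_univ _)
      have h2 : gd ≤ ((mnr (A t) J0).natAbs : ℤ) := by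
        refine Int.le_of_dvd (by positivity) ?_
        exact Int.dvd_natAbs.2 h1
      have h3 : (mnr (A t) J0).natAbs ≤
          Finset.univ.sup fun J : Fin (m + 1) → Fin (m + 1 + s) => (mnr (A t) J).natAbs :=
        Finset.le_sup (f := fun J => (mnr (A t) J).natAbs) (Finset.mem_univ _)
      refine Real.log_nonneg ?_
      rw [le_div_iff₀ (by exact_mod_cast hgd1), one_mul]
      have h4 : gd ≤ ((Finset.univ.sup fun J : Fin (m + 1) → Fin (m + 1 + s) =>
        (mnr (A t) J).natAbs : ℕ) : ℤ) := h2.trans (by exact_mod_cast h3)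
      exact_mod_cast h4
  obtain ⟨L, hLdef⟩ : ∃ L : ℕ → ℝ, L = fun t => Real.log (htv (x t)) + Real.log (ratio (A t)) :=
    ⟨_, rfl⟩
  have hLt' : ∀ t, L t = Real.log (htv (x t)) + Real.log (ratio (A t)) := fun t => by rw [hLdef]
  have hL0 : ∀ t, 0 ≤ L t := fun t => by rw [hLt']; exact add_nonneg (hlH t) (hratio t)
  have hHL : ∀ t, Real.log (htv (x t)) ≤ L t := fun t => by rw [hLt']; linarith [hratio t]
  have hlM : ∀ t, 0 ≤ Real.log (M t) := fun t => Real.log_nonneg (hM t)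
  obtain ⟨Bq, hBq⟩ : ∃ Bq : ℝ, Bq = (df j0 : ℝ) + 1 := ⟨_, rfl⟩
  have hBq0 : 0 < Bq := by rw [hBq]; positivity
  have hLt : ∀ t : ℕ, (t : ℝ) * (1 + Real.log (M t)) < Bq * L t := by
    intro t
    have h1 := hlt t
    have h2 := prox_le f df S hS (x t) (hHp t) j0 (hz t).1
    have h3 := hcu S hS (x t) (hHp t)
    have h4 : cu ≤ cu * (1 + Real.log (M t)) := le_mul_of_one_le_right hcu0 (by linarith [hlM t])
    have h5 : 0 ≤ ε * Real.log (htv (x t)) := mul_nonneg hε.le (hlH t)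
    have h6 : 0 ≤ ((m : ℝ) + 1) * Real.log (htv (x t)) := mul_nonneg (by positivity) (hlH t)
    have h7 : (df j0 : ℝ) * Real.log (htv (x t)) ≤ df j0 * L t :=
      mul_le_mul_of_nonneg_left (hHL t) (Nat.cast_nonneg _)
    have h8 : Real.log (ratio (A t)) ≤ L t := by rw [hLt']; linarith [hlH t]
    rw [hBq]
    nlinarith
  have hL : Tendsto L atTop atTop := by
    refine tendsto_atTop_mono (fun t => ?_)
      ((tendsto_natCast_atTop_atTop (R := ℝ)).atTop_div_const hBq0)
    rw [div_le_iff₀ hBq0]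
    have h1 := hLt t
    have h2 : 0 ≤ (t : ℝ) * Real.log (M t) := mul_nonneg (Nat.cast_nonneg t) (hlM t)
    rw [mul_add, mul_one] at h1
    linarith
  -- the digits are negligible
  have hneg : ∀ z : ℕ → ℤ, (∀ t, |(z t : ℝ)| ≤ M t) → gm (fun t => (z t : ℚ)) ∈ KK L hL := by
    intro z hz
    refine ⟨z, fun _ => 1, ?_, Negl.one hL, by simp, by
      congr 1
      funext t
      simp⟩
    intro ε' hε'
    have h1 : ∀ᶠ t : ℕ in atTop, Bq / ε' ≤ (t : ℝ) :=
      tendsto_natCast_atTop_atTop.eventually_ge_atTop _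
    refine ev_of_atTop (h1.mono fun t ht => ?_)
    refine (hz t).trans ?_
    rw [← Real.exp_log (show 0 < M t by linarith [hM t])]
    refine Real.exp_le_exp.2 ?_
    have h2 := hLt t
    have h3 : Bq / ε' * Real.log (M t) ≤ (t : ℝ) * (1 + Real.log (M t)) := by
      have h5 : (0 : ℝ) ≤ t := Nat.cast_nonneg t
      nlinarith [mul_le_mul_of_nonneg_right ht (hlM t)]
    have h5 : Bq / ε' * Real.log (M t) ≤ Bq * L t := h3.trans h2.le
    have h6 : Bq * (Real.log (M t)) ≤ Bq * (ε' * L t) := by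
      have h7 := mul_le_mul_of_nonneg_left h5 hε'.le
      have h8 : ε' * (Bq / ε' * Real.log (M t)) = Bq * Real.log (M t) := by field_simp
      rw [h8] at h7
      linarith
    exact le_of_mul_le_mul_left h6 hBq0
  -- the coordinates
  obtain ⟨xs, hxsd⟩ : ∃ xs : Fin (m + 1 + s) → ℕ → ℤ, xs = fun c t => x t c := ⟨_, rfl⟩
  have hxst : ∀ t, (fun c => xs c t) = x t := fun t => by rw [hxsd]
  have hxexp : ∀ c t, |(xs c t : ℝ)| ≤ Real.exp (1 * L t) := by
    intro c t
    rw [hxsd, one_mul]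
    refine (hle t c).trans ?_
    rw [← Real.exp_log (hHp t)]
    exact Real.exp_le_exp.2 (hHL t)
  -- the places
  choose av' hav' using fun (t : ℕ) (v : Option (Fin s')) =>
    Finite.exists_max fun c => av b v (x t c : ℚ)
  obtain ⟨i0, hi0⟩ := const_of_finite av'
  have ha : ∀ v, ∀ᶠ t in (UU : Filter ℕ), ∀ c, av b v (xs c t : ℚ) ≤ av b v (xs (i0 v) t : ℚ) := by
    intro v
    filter_upwards [hi0] with t ht c
    rw [← ht, hxsd]
    exact hav' t v c
  obtain ⟨ε1, hε1⟩ : ∃ ε1 : ℝ, ε1 = min (1 / 4) (ε / (2 * ((m : ℝ) + 2 + du k0))) := ⟨_, rfl⟩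
  have hm2 : (0 : ℝ) < (m : ℝ) + 2 + du k0 := by positivity
  have hε1' : 0 < ε1 := by
    rw [hε1]
    exact lt_min (by norm_num) (by positivity)
  have key := miGerm ncF csF hb hbi hL G dG hG
    (by
      intro z hz0 hzG
      obtain ⟨K, hK⟩ := hsm z hz0 (fun k => by
        have := hzG k
        rwa [← aevalZ] at this)
      refine ⟨K, fun i => i.elim0, ?_⟩
      have h1 : LinearIndependent ℂ
          (fun (j : Fin s) (c : Fin (m + 1 + s)) => aeval z (pderiv c
            (map (Int.castRingHom ℚ) (G (K j))))) := by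
        have h2 : (fun (j : Fin s) (c : Fin (m + 1 + s)) => aeval z (pderiv c
            (map (Int.castRingHom ℚ) (G (K j))))) =
            fun (j : Fin s) (c : Fin (m + 1 + s)) => aeval z (pderiv c (G (K j))) := by
          funext j c
          rw [aevalZ, pderiv_map]
        rw [h2]
        exact hK
      rw [Fintype.linearIndependent_iff] at h1 ⊢
      intro κ hκ i
      rcases i with j | ⟨i, _⟩
      · refine h1 (fun j => κ (Sum.inl j)) ?_ j
        rw [← hκ, Fintype.sum_sum_type]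
        simp
      · exact i.elim0)
    S0 hS0 f df hf j0 hj0 u du hu k0 hk0 hmult xs (fun t k => by rw [hxst]; exact hX t k)
    (fun t => by rw [hxst]; exact hgcd t) 1 (Eventually.of_forall fun t c => hxexp c t)
    (by
      intro P e hP hVP
      obtain ⟨s0, hs0⟩ := hg ⟨P, ⟨e, hP⟩, hVP⟩
      have h1 : ∀ᶠ t : ℕ in (UU : Filter ℕ), s0 ≤ t :=
        ev_of_atTop (eventually_ge_atTop s0)
      filter_upwards [h1] with t ht
      rw [hxst]
      have h2 := (hz t).2.2 s0 ht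
      rwa [hs0] at h2)
    (fun d => exists_lifts hbF fwF b hb hbi k Γ hΓb L hL hL0 M hneg xs (fun c t => by
      rw [hxsd]; exact hxs t c) 1 zero_le_one (fun c => Eventually.of_forall fun t => hxexp c t) d)
    A hAli (fun t ρ j => by
      have h1 := hAt t ρ j
      have h2 : ∀ c, (A t c ρ : ℚ) * aeval (fun c => (xs c t : ℚ))
          (pderiv c (map (Int.castRingHom ℚ) (G j))) =
          ((A t c ρ * eval (x t) (pderiv c (G j)) : ℤ) : ℚ) := by
        intro c
        rw [pderiv_map, ← aevalZ, aeval_int, hxst]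
        push_cast
        rfl
      rw [Finset.sum_congr rfl fun c _ => h2 c, ← Int.cast_sum, h1, Int.cast_zero])
    i0 ha (insert none ((Finset.univ.filter fun v => b v ∈ S).image some)) ε1 hε1'
  have hcL : ∀ᶠ t in (UU : Filter ℕ), cf / ε1 ≤ L t := ev_of_atTop (hL.eventually_ge_atTop _)
  obtain ⟨t, ⟨_, h1⟩, h2, h3, h4⟩ := (key.and (hi0.and (hcL.and (ev_pos hL)))).exists
  -- at this point
  have hmaxle : ∀ v c, av b v (x t c : ℚ) ≤ av b v (x t (i0 v) : ℚ) := by
    intro v c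
    rw [← h2]
    exact hav' t v c
  have hinf : |(xs (i0 none) t : ℝ)| = (htv fun c => xs c t : ℝ) := by
    rw [hxst, hxsd]
    show |(x t (i0 none) : ℝ)| = _
    refine le_antisymm (hle t _) ?_
    have h5 : (htv (x t) : ℝ) ≤ ((x t (i0 none)).natAbs : ℝ) := by
      norm_cast
      refine Finset.sup_le fun i _ => ?_
      have h6 := hmaxle none i
      simp only [av] at h6
      push_cast at h6
      have h7 : |x t i| ≤ |x t (i0 none)| := by exact_mod_cast h6
      rw [Int.abs_eq_natAbs, Int.abs_eq_natAbs] at h7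
      exact_mod_cast h7
    rwa [Nat.cast_natAbs, Int.cast_abs] at h5
  have hfin : ∀ v, av b (some v) (xs (i0 (some v)) t : ℚ) = 1 := by
    intro v
    rw [hxsd]
    show av b (some v) (x t (i0 (some v)) : ℚ) = 1
    refine le_antisymm (av_int_le_one hb v _) ?_
    obtain ⟨j, h1⟩ := av_gcd_le' hb v (x t)
    rw [hgcd t] at h1
    have h2 : av b (some v) ((1 : ℤ) : ℚ) = 1 := by rw [Int.cast_one, av_one hb]
    rw [h2] at h1
    exact h1.trans (hmaxle _ j)
  have hSb' : ∀ p ∈ S, ∃ v, b v = p := fun p hp => hSb p hp (hS p hp)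
  have e1 := prox_eq hb hbi f df hf S hSb' xs t i0 hinf hfin
  have e2 := prox_eq hb hbi u du hu S hSb' xs t i0 hinf hfin
  rw [hxst] at e1 e2
  rw [Finset.sum_sub_distrib, e1, e2] at h1
  have e3 : ∑ v, Real.log (av b v (xs (i0 v) t : ℚ)) = Real.log (htv (x t)) := by
    rw [Fintype.sum_option]
    have e4 : av b none (xs (i0 none) t : ℚ) = (htv (x t) : ℝ) := by
      rw [← hxst t, ← hinf]
      simp only [av]; push_cast; rfl
    rw [e4, Finset.sum_eq_zero fun v _ => by rw [hfin, Real.log_one], add_zero]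
  rw [e3] at h1
  have h1' : Real.log (ratio (A t)) ≤ ε1 * L t + ((m : ℝ) + 1) * Real.log (htv (x t)) +
    (-prox f df S (x t) - -prox u du S (x t)) := h1
  have h5 := hlt t
  have h6 := hcf S hS (x t) (hHp t)
  have h7 := prox_le u du S hS (x t) (hHp t) k0 (hz t).2.1
  have h8 : cf ≤ ε1 * L t := by
    rw [div_le_iff₀ hε1'] at h3
    linarith
  have h9 : 0 ≤ ((t : ℝ) + cu) * (1 + Real.log (M t)) :=
    mul_nonneg (add_nonneg (Nat.cast_nonneg t) hcu0) (by linarith [hlM t])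
  have h10 : ε1 ≤ 1 / 4 := by rw [hε1]; exact min_le_left _ _
  have h11 : ε1 * (2 * ((m : ℝ) + 2 + du k0)) ≤ ε := by
    have h12 : ε1 ≤ ε / (2 * ((m : ℝ) + 2 + du k0)) := by rw [hε1]; exact min_le_right _ _
    rwa [le_div_iff₀ (by positivity)] at h12
  have h12 : L t ≤ 2 * (((m : ℝ) + 2 + du k0) * Real.log (htv (x t))) := by
    have h13 := mul_le_mul_of_nonneg_right h10 (hL0 t)
    have h14 := hLt' t
    nlinarith
  have h13 : ε1 * L t ≤ ε * Real.log (htv (x t)) := by
    have h14 := mul_le_mul_of_nonneg_left h12 hε1'.le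
    have h15 := mul_le_mul_of_nonneg_right h11 (hlH t)
    nlinarith
  linarith

end Pool.Agent.Y731.MI
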